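import Pool.Agent.H35.OW.Ngg
import Pool.Agent.H73.OW.Ker2
import Pool.Agent.H88.OW.Qdf

/-!
# [OW S3] the pattern of the removed tuple and the box inequality with two layers (MP_b39724_nt, theorem OW), definitions

* `Rp a e₀ f v`: the tuple `v` of places has the letters `a`, and places with the same letter have the same label and the same prefix `pfx` (at the cells).
* `BxF2`: the box inequality for `FX2` at the new places `v` with `Rp`, `Ff2`, `rz = hx`, rich.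
-/

set_option autoImplicit false

open scoped NumberField commutatorElement
open IsDedekindDomain
open scoped Classical

noncomputable section

namespace H35.OW

open H63.MA H38.BB H38.BG H57.PC H57.BRA H77.WD H77.WE H77.PC3 H35.CF H35.UB H77.S3 H71.S3 H1.S3
open H73.S3 H73.OW

attribute [local instance 50] Fintype.ofFinite

variable {K : Type} [Field K] [NumberField K] {Ω : Type} [Field Ω] [Algebra K Ω]
  {p N : ℕ} {ζ : K} {D : RD0 K p ζ} {Q : DP K Ω} {A : GS D Ω} {P : Type} [Group P]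
  {c : CL p N P} {S : Type} [Group S] [MulDistribMulAction P S] {q d n : ℕ}

variable (G : SG c S) (B : SD D Q A) (X : FD A P S) (W : WF A)

/-- pattern: letters `a`, equal labels and prefixes for equal letters -/
def Rp (T : ℝ) (Zc : Finset (Pl K)) (a : Fin n → Px c) (e₀ : Pl K ⊕ Fin A.g → El2 S P q d)
    (f : Pl K → Option (Elb2 c S q d)) (v : Fin n → Pl K) : Prop :=
  (∀ k, lf2 f (v k) = some (a k)) ∧ ∀ k k', a k = a k' → f (v k) = f (v k') ∧
    (adx2 G B X W T Zc f).pfx (fun j => (ef2 e₀ f j).2) (v k) =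
      (adx2 G B X W T Zc f).pfx (fun j => (ef2 e₀ f j).2) (v k')

/-- the conditions on the labels -/
def Cn2 (T : ℝ) (Zc : Finset (Pl K))
    (hx : ∀ f : Pl K → Option (Px c), (adf G B X W T Zc f).Jf → Du S q (d + 1) × Du S q (d + 1 + 1))
    (M : ℕ) (e₀ : Pl K ⊕ Fin A.g → El2 S P q d) (f : Pl K → Option (Elb2 c S q d)) : Prop :=
  (adx2 G B X W T Zc f).Ff2 ((adx2 G B X W T Zc f).et2 (ef2 e₀ f)) ∧
    (adx2 G B X W T Zc f).rz ((adx2 G B X W T Zc f).et2 (ef2 e₀ f)) = hx (lf2 f) ∧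
    Rich X W T Zc M (lf2 f)

/-- the box inequality for `FX2` -/
def BxF2 [Fintype S] [Fintype P] [NeZero q] (T : ℝ) (Zc : Finset (Pl K))
    (hx : ∀ f : Pl K → Option (Px c), (adf G B X W T Zc f).Jf → Du S q (d + 1) × Du S q (d + 1 + 1))
    (Bf : ∀ i j : ℕ, Gr S i →+ Gr S j →+ ZMod q) (a : Fin n → Px c) (M : ℕ) (C₁ A' Y : ℝ) :
    Prop :=
  ∀ (τ₀ : V0 B X → S) (e₀ : H73.S3.J0 X → El2 S P q d) (l : Fin n → Elb2 c S q d)
    (lo hi : Fin n → ℝ), (∀ k, T ≤ lo k ∧ lo k ≤ hi k ∧ hi k ≤ 2 * lo k ∧ hi k ≤ Y ^ C₁) →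
    ∑ b ∈ (Cf Zc (Elb2 c S q d)).filter (fun b => nr (sp Zc b) ≤ Y ^ C₁ ∧
        ((sp Zc b).card : ℝ) ≤ C₁ * (1 + Real.log (Real.log Y))),
      (nr (sp Zc b))⁻¹ * (∏ k, lo k)⁻¹ * ‖∑ v ∈ (H35.CF.Fr Zc (PPc X W T) b n).filter
        (fun v => ∀ k, lo k < nm (v k) ∧ (nm (v k) : ℝ) ≤ hi k),
          (if Rp G B X W T Zc a (xeG ((0, 0), 1) X e₀) (up b v l) v ∧
              Cn2 G B X W T Zc hx M (xeG ((0, 0), 1) X e₀) (up b v l) then
            FX2 G B X W T Zc hx Bf (xt0 B X τ₀) (xeG ((0, 0), 1) X e₀) (up b v l) else 0)‖ ≤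
      Real.log Y ^ (-A')

/-- the family `hx` is natural -/
def Hxn (T : ℝ) (Zc : Finset (Pl K))
    (hx : ∀ f : Pl K → Option (Px c), (adf G B X W T Zc f).Jf → Du S q (d + 1) × Du S q (d + 1 + 1)) :
    Prop :=
  ∀ (f₁ f₂ : Pl K → Option (Px c)) (s : Equiv.Perm (Pl K)) (h : SyG X W T Zc f₁ f₂ s)
    (j : (adf G B X W T Zc f₁).Jf), hx f₂ ⟨sgG A s j, (h.jf G B j).1 j.2⟩ = hx f₁ j

end H35.OW
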