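import Pool.Agent.H35.OW.Sy2

/-!
# [OW S3] the negligible sum with two layers (MP_b39724_nt, theorem OW)

`rp_ex`: a rich configuration has a tuple with the pattern `Rp` (pigeonhole). `neg2`: the sum over the enriched configurations of `wR · AX2 · FX2` is small if the box inequality `BxF2` holds for a
pattern `a` of letters (`ngG`).
-/

set_option autoImplicit false

open scoped NumberField commutatorElement
open IsDedekindDomain
open scoped Classical

noncomputable section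

namespace H35.OW

open H63.MA H38.BB H38.BG H57.PC H57.BRA H77.WD H77.WE H77.PC3 H35.CF H35.UB H77.S3 H71.S3 H1.S3
open H73.S3 H73.OW

attribute [local instance 50] Fintype.ofFinite

variable {K : Type} [Field K] [NumberField K] {Ω : Type} [Field Ω] [Algebra K Ω]
  {p N : ℕ} {ζ : K} {D : RD0 K p ζ} {Q : DP K Ω} {A : GS D Ω} {P : Type} [Group P]
  {c : CL p N P} {S : Type} [Group S] [MulDistribMulAction P S] {q d : ℕ}

private theorem mem_tp2 {V Λ : Type} {Z : Finset V} {W : V → Prop} {f : V → Option Λ} {n : ℕ}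
    {v : Fin n → V} : v ∈ Tp Z W f n ↔ (∀ k, v k ∈ Z ∧ f (v k) ≠ none ∧ W (v k)) ∧
      Function.Injective v := by
  unfold Tp
  rw [Finset.mem_filter, Fintype.mem_piFinset]
  constructor
  · rintro ⟨h1, h2⟩
    refine ⟨fun k => ?_, h2⟩
    have h3 := Finset.mem_filter.1 (h1 k)
    have h4 := mem_sp.1 h3.1
    exact ⟨h4.1, h4.2, h3.2⟩
  · rintro ⟨h1, h2⟩
    refine ⟨fun k => Finset.mem_filter.2 ⟨mem_sp.2 ⟨(h1 k).1, (h1 k).2.1⟩, (h1 k).2.2⟩, h2⟩

/-- a rich configuration has a tuple with the pattern -/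
theorem rp_ex [Fintype S] [Fintype P] [NeZero q] (G : SG c S) (B : SD D Q A) (X : FD A P S)
    (W : WF A) (T : ℝ) (Zc : Finset (Pl K)) (n M : ℕ)
    (hM : (n + 1) * (Fintype.card (Elb2 c S q d) * Fintype.card (Gr S 1)) ≤ M)
    (a : Fin n → Px c) (e₀ : Pl K ⊕ Fin A.g → El2 S P q d)
    (f : Pl K → Option (Elb2 c S q d)) (hr : Rich X W T Zc M (lf2 f)) :
    ∃ v ∈ Tp Zc (PPc X W T) f n, Rp G B X W T Zc a e₀ f v := by
  obtain ⟨px, hpx⟩ : ∃ px : Pl K → Gr S 1,
      px = fun v => (adx2 G B X W T Zc f).pfx (fun j => (ef2 e₀ f j).2) v := ⟨_, rfl⟩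
  have key : ∀ t : Px c, ∃ F : Finset (Pl K), F ⊆ (Zc.filter fun v => lf2 f v = some t ∧
      PPc X W T v) ∧ n ≤ F.card ∧ ∃ y : Option (Elb2 c S q d) × Gr S 1,
        ∀ v ∈ F, (f v, px v) = y := by
    intro t
    obtain ⟨Z, hZ⟩ : ∃ Z, Z = Zc.filter fun v => lf2 f v = some t ∧ PPc X W T v := ⟨_, rfl⟩
    have hZc : M ≤ Z.card := by
      rw [hZ]
      exact hr t
    obtain ⟨Tg, hTg⟩ : ∃ Tg : Finset (Option (Elb2 c S q d) × Gr S 1),
        Tg = ((Finset.univ : Finset (Elb2 c S q d)).image some) ×ˢ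
          (Finset.univ : Finset (Gr S 1)) := ⟨_, rfl⟩
    have hcard : Tg.card = Fintype.card (Elb2 c S q d) * Fintype.card (Gr S 1) := by
      rw [hTg, Finset.card_product, Finset.card_image_of_injective _ (Option.some_injective _),
        Finset.card_univ, Finset.card_univ]
    have hpos : 0 < Tg.card := by
      rw [hcard]
      have h1 : 0 < Fintype.card (Elb2 c S q d) :=
        Fintype.card_pos_iff.2 ⟨(t, 1, ((0, 0), 1), ())⟩
      have h2 : 0 < Fintype.card (Gr S 1) := Fintype.card_pos_iff.2 ⟨0⟩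
      exact Nat.mul_pos h1 h2
    have hmaps : ∀ v ∈ Z, (f v, px v) ∈ Tg := by
      intro v hv
      rw [hZ, Finset.mem_filter] at hv
      rw [hTg, Finset.mem_product]
      refine ⟨Finset.mem_image.2 ?_, Finset.mem_univ _⟩
      have h1 : f v ≠ none := by
        intro h2
        have h3 := hv.2.1
        unfold lf2 at h3
        rw [h2] at h3
        exact absurd h3 (by simp)
      obtain ⟨x, hx⟩ := Option.ne_none_iff_exists'.1 h1
      exact ⟨x, Finset.mem_univ _, hx.symm⟩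
    have hlt : Tg.card * n < Z.card := by
      have h1 : Tg.card * n < (n + 1) * Tg.card := by
        rw [mul_comm]
        exact Nat.mul_lt_mul_of_pos_right (Nat.lt_succ_self n) hpos
      rw [hcard] at h1
      exact lt_of_lt_of_le (by rw [hcard]; exact h1) (hM.trans hZc)
    obtain ⟨y, -, hy⟩ := Finset.exists_lt_card_fiber_of_mul_lt_card_of_maps_to hmaps hlt
    refine ⟨Z.filter fun v => (f v, px v) = y, ?_, hy.le, y, ?_⟩
    · rw [← hZ]
      exact Finset.filter_subset _ _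
    · intro v hv
      exact (Finset.mem_filter.1 hv).2
  choose F hF hn y hy using key
  obtain ⟨e, he⟩ : ∃ e : ∀ t : Px c, Fin n → Pl K, ∀ t, (∀ k, e t k ∈ F t) ∧
      Function.Injective (e t) := by
    refine ⟨fun t k => ((F t).equivFin.symm (Fin.castLE (hn t) k)).1, fun t => ⟨fun k => ?_, ?_⟩⟩
    · exact ((F t).equivFin.symm (Fin.castLE (hn t) k)).2
    · intro i j hij
      have h1 := (F t).equivFin.symm.injective (Subtype.ext hij)
      exact Fin.castLE_injective (hn t) h1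
  have hmem : ∀ k : Fin n, e (a k) k ∈ Zc ∧ lf2 f (e (a k) k) = some (a k) ∧
      PPc X W T (e (a k) k) := by
    intro k
    have h1 := hF (a k) ((he (a k)).1 k)
    rw [Finset.mem_filter] at h1
    exact ⟨h1.1, h1.2.1, h1.2.2⟩
  refine ⟨fun k => e (a k) k, mem_tp2.2 ⟨fun k => ⟨(hmem k).1, ?_, (hmem k).2.2⟩, ?_⟩,
    fun k => (hmem k).2.1, ?_⟩
  · intro h2
    have h3 := (hmem k).2.1
    unfold lf2 at h3
    rw [h2] at h3
    exact absurd h3 (by simp)
  · intro i j hij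
    have hij' : e (a i) i = e (a j) j := hij
    have h1 : a i = a j := by
      have h2 := (hmem i).2.1
      rw [hij', (hmem j).2.1] at h2
      exact (Option.some.inj h2).symm
    rw [h1] at hij'
    exact (he (a j)).2 hij'
  · intro k k' hk
    have h1 := hy (a k) _ ((he (a k)).1 k)
    have h2 := hy (a k') _ ((he (a k')).1 k')
    rw [← hk] at h2
    have h3 : (f (e (a k) k), px (e (a k) k)) = (f (e (a k') k'), px (e (a k') k')) := by
      rw [h1, ← hk, h2]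
    have h4 := congrArg Prod.fst h3
    have h5 := congrArg Prod.snd h3
    refine ⟨h4, ?_⟩
    have h6 : px (e (a k) k) = px (e (a k') k') := h5
    rw [hpx] at h6
    exact h6

theorem neg2 [Fintype S] [Fintype P] [NeZero q] (G : SG c S) (B : SD D Q A) (n M : ℕ)
    (hM : (n + 1) * (Fintype.card (Elb2 c S q d) * Fintype.card (Gr S 1)) ≤ M) (c₀ g₀ : ℕ)
    (A₁ ε : ℝ) (hA : 0 ≤ A₁) (hε : 0 < ε) :
    ∃ C₁ A' C : ℝ, 3 ≤ C₁ ∧ 0 ≤ A' ∧ 0 < C ∧ ∀ Y : ℝ, 3 ≤ Y →
      ∀ (k Mw : ℕ) (X : FD A P S) (W : WF A) (Zc : Finset (Pl K)), X.E.card ≤ g₀ →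
        NgOk G B X W k Mw q c₀ (Real.exp (Real.log Y ^ ε)) Zc →
      ∀ ψ : ℝ → ℝ, (∀ t, |ψ t| ≤ 1) → (∀ t, 2 ≤ t → ψ t = 0) → (∀ s t, |ψ s - ψ t| ≤ |s - t|) →
      ∀ (hx : ∀ f : Pl K → Option (Px c), (adf G B X W (Real.exp (Real.log Y ^ ε)) Zc f).Jf →
          Du S q (d + 1) × Du S q (d + 1 + 1)) (Bf : ∀ i j : ℕ, Gr S i →+ Gr S j →+ ZMod q)
        (a : Fin n → Px c), Hxn G B X W (Real.exp (Real.log Y ^ ε)) Zc hx →
      BxF2 G B X W (Real.exp (Real.log Y ^ ε)) Zc hx Bf a M C₁ A' Y →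
      ‖∑ τ : V0 B X → S, ∑ e : H73.S3.J0 X → El2 S P q d, ∑ f ∈ Cf Zc (Elb2 c S q d),
        wR X W (Real.exp (Real.log Y ^ ε)) Zc M ψ Y (lf2 f) *
          AX2 G B X W (Real.exp (Real.log Y ^ ε)) Zc hx (xt0 B X τ) (xeG ((0, 0), 1) X e) f *
          FX2 G B X W (Real.exp (Real.log Y ^ ε)) Zc hx Bf (xt0 B X τ) (xeG ((0, 0), 1) X e) f‖ ≤
        C * Y * Real.log Y ^ (-A₁) := by
  have hnS : (1 : ℝ) ≤ (Fintype.card S : ℝ) := by
    exact_mod_cast Fintype.card_pos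
  have hne : Nonempty (El2 S P q d) := ⟨((0, 0), 1)⟩
  obtain ⟨C₁, A', C, h1, h2, h3, hb⟩ := ngG G B q (Elb2 c S q d) (fun x => x.1) (El2 S P q d)
    n M c₀ g₀ (Fintype.card S : ℝ) A₁ ε (by linarith) hA hε
  refine ⟨C₁, A', C, h1, h2, h3, fun Y hY k Mw X W Zc hg hok ψ hψ1 hψ2 hψ3 hx Bf a hxn hbx => ?_⟩
  refine hb Y hY k Mw X W Zc hg hok ψ hψ1 hψ2 hψ3
    (fun τ e f => AX2 G B X W (Real.exp (Real.log Y ^ ε)) Zc hx (xt0 B X τ)
      (xeG ((0, 0), 1) X e) f)
    (fun τ e f => FX2 G B X W (Real.exp (Real.log Y ^ ε)) Zc hx Bf (xt0 B X τ)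
      (xeG ((0, 0), 1) X e) f)
    (fun _ e f v => Rp G B X W (Real.exp (Real.log Y ^ ε)) Zc a (xeG ((0, 0), 1) X e) f v)
    (fun _ e b v l => Cn2 G B X W (Real.exp (Real.log Y ^ ε)) Zc hx M (xeG ((0, 0), 1) X e)
      (up b v l)) ?_ ?_ ?_ ?_ ?_ ?_ ?_
  · intro τ e f _
    unfold AX2
    split_ifs with h
    · rw [norm_div, norm_pow, Complex.norm_natCast]
      refine (div_le_self (norm_nonneg _) (one_le_pow₀ hnS)).trans ?_
      exact hhh_le _ _ _ _
    · rw [norm_zero]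
      exact Nat.cast_nonneg _
  · intro τ e f _
    unfold FX2
    split_ifs with h
    · exact kr2_le _ _ _
    · rw [norm_zero]
      exact zero_le_one
  · intro τ e f _ hr _ _
    exact rp_ex G B X W _ Zc n M hM a _ f hr
  · intro τ e f₁ _ f₂ _ s hs
    exact hs.ax2 G B hx hxn _ _
  · intro τ e f₁ _ f₂ _ s hs v hv
    exact hs.rp G B a _ v fun k => by
      have h4 := (mem_tp2.1 hv).1 k
      exact mem_sp.2 ⟨h4.1, h4.2.1⟩
  · intro τ e l b _ v _ hr _ ha
    have h4 : AX2 G B X W (Real.exp (Real.log Y ^ ε)) Zc hx (xt0 B X τ)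
      (xeG ((0, 0), 1) X e) (up b v l) ≠ 0 := ha
    unfold AX2 at h4
    by_contra hc
    refine h4 (if_neg fun h5 => hc ⟨h5.1, h5.2, hr⟩)
  · intro τ e l lo hi hlh
    exact hbx τ e l lo hi hlh

end H35.OW
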