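import Pool.Agent.H35.OW.Pat

/-!
# [OW S3] symmetries and the data of two layers (MP_b39724_nt, theorem OW)

`TrG.hhh`: transport of `Hhh`. `SyG.pfx`: transport of the prefixes. `SyG.ax2`: the amplitude `AX2` is preserved. `SyG.rp`: the pattern is preserved. `hxn_etX`: the family `etX` of H88/OW is natural.
-/

set_option autoImplicit false

open scoped NumberField commutatorElement
open IsDedekindDomain
open scoped Classical

noncomputable section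

namespace H35.OW

open H63.MA H38.BB H38.BG H57.PC H57.BRA H77.WD H77.WE H77.PC3 H35.CF H35.UB H77.S3 H71.S3 H1.S3
open H73.S3 H73.OW

attribute [local instance 50] Fintype.ofFinite

section tr

variable {S P : Type} [Group S] [Group P] [MulDistribMulAction P S] {J V : Type}
  {X₁ X₂ : AD S P J V} {σ : Equiv.Perm J} {τ₁ τ₂ : V → S} {q d : ℕ}

theorem TrG.rz (ht : TrG X₁ X₂ σ τ₁ τ₂) {ζ₁ : X₁.Jf → Dz S q d × Dz S q (d + 1)}
    {ζ₂ : X₂.Jf → Dz S q d × Dz S q (d + 1)} (hζ : ∀ j, ζ₂ (ejG ht j) = ζ₁ j) (j : X₁.Jf) :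
    X₂.rz ζ₂ (ejG ht j) = X₁.rz ζ₁ j := by
  unfold AD.rz
  rw [hζ]
  exact if_congr (ht.pp j j.2) rfl rfl

theorem TrG.ff2 (ht : TrG X₁ X₂ σ τ₁ τ₂) {ζ₁ : X₁.Jf → Dz S q d × Dz S q (d + 1)}
    {ζ₂ : X₂.Jf → Dz S q d × Dz S q (d + 1)} (hζ : ∀ j, ζ₂ (ejG ht j) = ζ₁ j) :
    X₂.Ff2 ζ₂ ↔ X₁.Ff2 ζ₁ := by
  have key : ∀ j : X₁.Jf, (if X₂.pp (ejG ht j : X₂.Jf) then (ζ₂ (ejG ht j)).2 = 0
      else (ζ₂ (ejG ht j)).1 = 0) ↔ if X₁.pp j then (ζ₁ j).2 = 0 else (ζ₁ j).1 = 0 := by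
    intro j
    have h3 := ht.pp j j.2
    rw [hζ, ejG_coe]
    by_cases h4 : X₁.pp j
    · rw [if_pos h4, if_pos (h3.2 h4)]
    · rw [if_neg h4, if_neg (mt h3.1 h4)]
  unfold AD.Ff2
  constructor
  · intro h j
    exact (key j).1 (h (ejG ht j))
  · intro h j
    obtain ⟨j, rfl⟩ := (ejG ht).surjective j
    exact (key j).2 (h j)

theorem TrG.pr2 (ht : TrG X₁ X₂ σ τ₁ τ₂) (u : X₁.Jf → S)
    {ζ₁ : X₁.Jf → Dz S q d × Dz S q (d + 1)}
    {ζ₂ : X₂.Jf → Dz S q d × Dz S q (d + 1)} (hζ : ∀ j, ζ₂ (ejG ht j) = ζ₁ j) :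
    X₂.pr2 ζ₂ (euG ht u) = X₁.pr2 ζ₁ u := by
  unfold AD.pr2
  symm
  refine Fintype.sum_equiv (ejG ht) _ _ fun j => ?_
  rw [euG_ap, hζ]
  exact if_congr (ht.pp j j.2).symm rfl rfl

theorem TrG.hhh [Fintype S] (ht : TrG X₁ X₂ σ τ₁ τ₂) {x₁ x₂ : J → SP S P}
    (hx : ∀ j ∈ X₁.Jf, x₂ (σ j) = x₁ j) {ζ₁ : X₁.Jf → Dz S q d × Dz S q (d + 1)}
    {ζ₂ : X₂.Jf → Dz S q d × Dz S q (d + 1)} (hζ : ∀ j, ζ₂ (ejG ht j) = ζ₁ j) :
    X₂.Hhh τ₂ x₂ ζ₂ = X₁.Hhh τ₁ x₁ ζ₁ := by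
  have h1 : ∑ u ∈ X₁.Cg d, X₁.Hh (d + 1) τ₁ (X₁.mv u x₁) (X₁.rz ζ₁) *
        ep q (-X₁.pr2 ζ₁ u) =
      ∑ u ∈ X₂.Cg d, X₂.Hh (d + 1) τ₂ (X₂.mv u x₂) (X₂.rz ζ₂) * ep q (-X₂.pr2 ζ₂ u) := by
    refine ht.sum _ _ (fun u => ht.mem_cg d u) _ _ fun u _ => ?_
    rw [ht.hh (ht.mv u hx) (ht.rz hζ), ht.pr2 u hζ]
  have h2 : (X₁.Cg d).card = (X₂.Cg d).card := ht.card _ _ fun u => ht.mem_cg d u
  unfold AD.Hhh
  rw [h1, h2]

end tr

section ls

variable {α M : Type} [AddCommMonoid M]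

theorem tw_filt (p : α → Prop) [DecidablePred p] (g : α → M) (hg : ∀ w, ¬p w → g w = 0) (v : α)
    (hv : p v) (l : List α) :
    ((l.takeWhile fun w => decide (w ≠ v)).map g).sum =
      (((l.filter fun w => decide (p w)).takeWhile fun w => decide (w ≠ v)).map g).sum := by
  induction l with
  | nil => rfl
  | cons a l ih =>
    by_cases h1 : a = v
    · subst h1
      rw [List.filter_cons, if_pos (decide_eq_true hv), List.takeWhile_cons, List.takeWhile_cons]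
      simp
    · have h2 : decide (a ≠ v) = true := decide_eq_true h1
      rw [List.takeWhile_cons, h2, if_pos rfl, List.map_cons, List.sum_cons, List.filter_cons]
      by_cases h3 : p a
      · rw [if_pos (decide_eq_true h3), List.takeWhile_cons, h2, if_pos rfl, List.map_cons,
          List.sum_cons, ih]
      · rw [if_neg (by rw [decide_eq_true_eq]; exact h3), hg a h3, zero_add, ih]

theorem tw_map (s : Equiv.Perm α) (v : α) (l : List α) :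
    (l.map s).takeWhile (fun w => decide (w ≠ s v)) =
      (l.takeWhile fun w => decide (w ≠ v)).map s := by
  induction l with
  | nil => rfl
  | cons a l ih =>
    rw [List.map_cons, List.takeWhile_cons, List.takeWhile_cons]
    by_cases h1 : a = v
    · subst h1
      simp
    · have h2 : decide (a ≠ v) = true := decide_eq_true h1
      have h3 : decide (s a ≠ s v) = true := decide_eq_true fun h => h1 (s.injective h)
      rw [h2, h3, if_pos rfl, if_pos rfl, List.map_cons, ih]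

end ls

variable {K : Type} [Field K] [NumberField K] {Ω : Type} [Field Ω] [Algebra K Ω]
  {p N : ℕ} {ζ : K} {D : RD0 K p ζ} {Q : DP K Ω} {A : GS D Ω} {P : Type} [Group P]
  {c : CL p N P} {S : Type} [Group S] [MulDistribMulAction P S] {q d n : ℕ}

section sy

variable {X : FD A P S} {W : WF A} {T : ℝ} {Zc : Finset (Pl K)}

/-- transport of the prefixes -/
theorem SyG.pfx {f₁ f₂ : Pl K → Option (Px c)} {s : Equiv.Perm (Pl K)}
    (h : SyG X W T Zc f₁ f₂ s) (G : SG c S) (B : SD D Q A)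
    (x₁ x₂ : Pl K ⊕ Fin A.g → SP S P)
    (hx : ∀ j ∈ (adf G B X W T Zc f₁).Jf, x₂ (sgG A s j) = x₁ j) (w : Pl K)
    (hw : w ∈ H35.CF.sp Zc f₁ ∨ w ∈ X.E ∨ w ∈ D.S0) :
    (adf G B X W T Zc f₂).pfx x₂ (s w) = (adf G B X W T Zc f₁).pfx x₁ w := by
  have hg : ∀ (f : Pl K → Option (Px c)) (x : Pl K ⊕ Fin A.g → SP S P) (v : Pl K),
      ¬(v ∈ H35.CF.sp Zc f ∨ v ∈ X.E ∨ v ∈ D.S0) →
      gk 1 ((adf G B X W T Zc f).bk x v).left = 0 := by
    intro f x v hv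
    rw [bkG_dead G B X W T Zc f x v hv]
    exact gk_one 1
  have hw2 : s w ∈ H35.CF.sp Zc f₂ ∨ s w ∈ X.E ∨ s w ∈ D.S0 := by
    rcases hw with h1 | h1 | h1
    · exact Or.inl ((h.sp w).2 h1)
    · exact Or.inr (Or.inl ((h.ei w).2 h1))
    · exact Or.inr (Or.inr ((h.si w).2 h1))
  show (((W.l.takeWhile fun v => decide (v ≠ s w)).map
      fun v => gk 1 ((adf G B X W T Zc f₂).bk x₂ v).left).sum) =
    (((W.l.takeWhile fun v => decide (v ≠ w)).map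
      fun v => gk 1 ((adf G B X W T Zc f₁).bk x₁ v).left).sum)
  rw [tw_filt (fun v => v ∈ H35.CF.sp Zc f₂ ∨ v ∈ X.E ∨ v ∈ D.S0) _ (hg f₂ x₂) (s w) hw2,
    tw_filt (fun v => v ∈ H35.CF.sp Zc f₁ ∨ v ∈ X.E ∨ v ∈ D.S0) _ (hg f₁ x₁) w hw, h.l,
    tw_map, List.map_map]
  congr 1
  refine List.map_congr_left fun v hv => ?_
  have h1 : v ∈ W.l.filter fun w => decide (w ∈ H35.CF.sp Zc f₁ ∨ w ∈ X.E ∨ w ∈ D.S0) :=
    (List.takeWhile_sublist _).subset hv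
  rw [List.mem_filter, decide_eq_true_eq] at h1
  show gk 1 ((adf G B X W T Zc f₂).bk x₂ (s v)).left = _
  rw [h.bk G B x₁ x₂ hx v h1.2]

variable {f₁ f₂ : Pl K → Option (Elb2 c S q d)} {s : Equiv.Perm (Pl K)}

/-- the amplitude is preserved -/
theorem SyG.ax2 [Fintype S] (h : SyG X W T Zc f₁ f₂ s) (G : SG c S) (B : SD D Q A)
    (hx : ∀ f : Pl K → Option (Px c), (adf G B X W T Zc f).Jf → Du S q (d + 1) × Du S q (d + 1 + 1))
    (hh : Hxn G B X W T Zc hx) (τ₀ : Pl K → S) (e₀ : Pl K ⊕ Fin A.g → El2 S P q d) :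
    AX2 G B X W T Zc hx τ₀ e₀ f₁ = AX2 G B X W T Zc hx τ₀ e₀ f₂ := by
  have ht : TrG (adx2 G B X W T Zc f₁) (adx2 G B X W T Zc f₂) (sgG A s) (tf2 τ₀ f₁)
      (tf2 τ₀ f₂) := h.trl G B τ₀
  have hef : ∀ j ∈ (adx2 G B X W T Zc f₁).Jf, ef2 e₀ f₂ (sgG A s j) = ef2 e₀ f₁ j :=
    fun j hj => h.ef G B e₀ j hj
  have hζ : ∀ j, (adx2 G B X W T Zc f₂).et2 (ef2 e₀ f₂) (ejG ht j) =
      (adx2 G B X W T Zc f₁).et2 (ef2 e₀ f₁) j := by
    intro j
    show (ef2 e₀ f₂ (sgG A s j)).1 = (ef2 e₀ f₁ j).1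
    rw [hef j j.2]
  have c1 := ht.ff2 hζ
  have c2 : (adx2 G B X W T Zc f₂).rz ((adx2 G B X W T Zc f₂).et2 (ef2 e₀ f₂)) = hx (lf2 f₂) ↔
      (adx2 G B X W T Zc f₁).rz ((adx2 G B X W T Zc f₁).et2 (ef2 e₀ f₁)) = hx (lf2 f₁) := by
    have hn : ∀ j : (adx2 G B X W T Zc f₁).Jf, hx (lf2 f₂) (ejG ht j) = hx (lf2 f₁) j :=
      fun j => hh (lf2 f₁) (lf2 f₂) s h.lf j
    constructor
    · intro h1
      funext j
      rw [← ht.rz hζ j, h1, hn j]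
    · intro h1
      funext j
      obtain ⟨j, rfl⟩ := (ejG ht).surjective j
      rw [ht.rz hζ j, h1, hn j]
  have c3 : (adx2 G B X W T Zc f₂).Hhh (tf2 τ₀ f₂) (fun j => (ef2 e₀ f₂ j).2)
      ((adx2 G B X W T Zc f₂).et2 (ef2 e₀ f₂)) =
      (adx2 G B X W T Zc f₁).Hhh (tf2 τ₀ f₁) (fun j => (ef2 e₀ f₁ j).2)
      ((adx2 G B X W T Zc f₁).et2 (ef2 e₀ f₁)) := by
    refine ht.hhh (fun j hj => ?_) hζ
    show (ef2 e₀ f₂ (sgG A s j)).2 = (ef2 e₀ f₁ j).2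
    rw [hef j hj]
  have c4 : (adx2 G B X W T Zc f₁).Vf.card = (adx2 G B X W T Zc f₂).Vf.card := h.lf.vf G B
  unfold AX2
  rw [c3, c4]
  exact if_congr (and_congr c1.symm c2.symm) rfl rfl

/-- the pattern is preserved -/
theorem SyG.rp (h : SyG X W T Zc f₁ f₂ s) (G : SG c S) (B : SD D Q A)
    (a : Fin n → Px c) (e₀ : Pl K ⊕ Fin A.g → El2 S P q d) (v : Fin n → Pl K)
    (hv : ∀ k, v k ∈ H35.CF.sp Zc f₁) :
    Rp G B X W T Zc a e₀ f₁ v ↔ Rp G B X W T Zc a e₀ f₂ fun k => s (v k) := by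
  have hef : ∀ j ∈ (adf G B X W T Zc (lf2 f₁)).Jf, ef2 e₀ f₂ (sgG A s j) = ef2 e₀ f₁ j :=
    fun j hj => h.ef G B e₀ j hj
  have hp : ∀ k, (adx2 G B X W T Zc f₂).pfx (fun j => (ef2 e₀ f₂ j).2) (s (v k)) =
      (adx2 G B X W T Zc f₁).pfx (fun j => (ef2 e₀ f₁ j).2) (v k) := by
    intro k
    refine h.lf.pfx G B _ _ (fun j hj => ?_) (v k) (Or.inl ?_)
    · show (ef2 e₀ f₂ (sgG A s j)).2 = (ef2 e₀ f₁ j).2
      rw [hef j hj]
    · rw [sp_lfG]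
      exact hv k
  have hl : ∀ k, lf2 f₂ (s (v k)) = lf2 f₁ (v k) := by
    intro k
    unfold lf2
    rw [h.f]
  unfold Rp
  refine and_congr (forall_congr' fun k => by rw [hl]) ?_
  refine forall_congr' fun k => forall_congr' fun k' => forall_congr' fun _ => ?_
  rw [hp, hp, h.f, h.f]

end sy

/-- `SyG` does not change the words: the family `etX` is natural -/
theorem hxn_etX (G : SG c S) (B : SD D Q A) (X : FD A P S) (W : WF A) (T : ℝ)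
    (Zc : Finset (Pl K)) (x : (Px c → Du S q (d + 1)) × (P → Du S q (d + 1 + 1))) :
    Hxn (q := q) (d := d) G B X W T Zc fun f => H88.OW.etX G B X W T Zc f x := by
  intro f₁ f₂ s h j
  obtain ⟨j, hj⟩ := j
  have hpp := h.pp G B j
  have hph : (adf G B X W T Zc f₂).ph = (adf G B X W T Zc f₁).ph := phG_eq G B X W T Zc f₂ f₁
  show (if (adf G B X W T Zc f₂).pp (sgG A s j) then
      (H88.OW.xf x.1 f₂ (sgG A s j), (0 : Du S q (d + 1 + 1))) else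
      (0, zeta (fun w => x.2 ((adf G B X W T Zc f₂).ph w)) FreeGroup.of
        (adf G B X W T Zc f₂).W ((adf G B X W T Zc f₂).bl
          ((adf G B X W T Zc f₂).pj (sgG A s j))) (sgG A s j))) =
    if (adf G B X W T Zc f₁).pp j then (H88.OW.xf x.1 f₁ j, 0) else
      (0, zeta (fun w => x.2 ((adf G B X W T Zc f₁).ph w)) FreeGroup.of
        (adf G B X W T Zc f₁).W ((adf G B X W T Zc f₁).bl
          ((adf G B X W T Zc f₁).pj j)) j)
  by_cases hp : (adf G B X W T Zc f₁).pp j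
  · rw [if_pos (hpp.2 hp), if_pos hp]
    rcases j with w | i
    · show ((f₂ (s w)).elim 0 x.1, (0 : Du S q (d + 1 + 1))) = ((f₁ w).elim 0 x.1, 0)
      rw [h.f]
    · rfl
  · rw [if_neg (mt hpp.1 hp), if_neg hp, h.nf G B j hj hp, hph]
    rfl

end H35.OW
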