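import Pool.Agent.H73.S3.Rei

/-!
# [OW S3] generic enriched labels (MP_b39724_nt; generic form of H73/S3/Enr, Rei)

* `LbG c S E U`: enriched labels: letter, conjugator, data `E` of the letter, value `U` at the word. For `E = El S P q m`, `U = Du S q (m + 1)`: `Elb` of H73/S3/Enr.
* `lfG`, `tfG`, `efG`, `kfG`: the components of a configuration with enriched labels (`lf`, `tf`, `ef`, `kf`). `xeG d₀`, `eeG d₀`: extension by the default `d₀`.
* `rei_bijG`: sums over enriched configurations above `f` are sums over conjugators, data at the letters and values.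
-/

set_option autoImplicit false

open scoped NumberField commutatorElement
open IsDedekindDomain
open scoped Classical

noncomputable section

namespace H35.OW

open H63.MA H38.BB H38.BG H57.PC H57.BRA H77.WD H77.WE H77.PC3 H35.CF H35.UB H77.S3 H71.S3 H1.S3
open H73.S3

attribute [local instance 50] Fintype.ofFinite

/-- extension of the data of the letters -/
def eeG {S P : Type} [Group S] [Group P] [MulDistribMulAction P S] {J V E : Type} (d₀ : E)
    (X : AD S P J V) (e : X.Jf → E) (j : J) : E :=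
  if h : j ∈ X.Jf then e ⟨j, h⟩ else d₀

variable {K : Type} [Field K] [NumberField K] {Ω : Type} [Field Ω] [Algebra K Ω]
  {p N : ℕ} {ζ : K} {D : RD0 K p ζ} {Q : DP K Ω} {A : GS D Ω} {P : Type} [Group P]
  {c : CL p N P} {S : Type} {E U : Type}

variable (c S E U) in
/-- enriched labels -/
abbrev LbG : Type := Px c × S × E × U

/-- the letters -/
def lfG (f : Pl K → Option (LbG c S E U)) (v : Pl K) : Option (Px c) := (f v).map fun a => a.1

/-- the conjugators -/
def tfG (τ₀ : Pl K → S) (f : Pl K → Option (LbG c S E U)) (v : Pl K) : S :=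
  (f v).elim (τ₀ v) fun a => a.2.1

/-- the data of the letters -/
def efG {g : ℕ} (e₀ : Pl K ⊕ Fin g → E) (f : Pl K → Option (LbG c S E U)) :
    Pl K ⊕ Fin g → E :=
  Sum.elim (fun v => (f v).elim (e₀ (Sum.inl v)) fun a => a.2.2.1) fun i => e₀ (Sum.inr i)

/-- the values -/
def kfG [Zero U] (f : Pl K → Option (LbG c S E U)) (v : Pl K) : U := (f v).elim 0 fun a => a.2.2.2

theorem sp_lfG (Zc : Finset (Pl K)) (F : Pl K → Option (LbG c S E U)) :
    sp Zc (lfG F) = sp Zc F := by
  ext v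
  rw [mem_sp, mem_sp]
  have h : lfG F v = none ↔ F v = none := by
    show (F v).map _ = none ↔ _
    rw [Option.map_eq_none_iff]
  exact and_congr_right fun _ => not_congr h

theorem lfG_cf [Fintype S] [Fintype P] [Fintype E] [Fintype U] {Zc : Finset (Pl K)}
    {F : Pl K → Option (LbG c S E U)} (hF : F ∈ Cf Zc (LbG c S E U)) : lfG F ∈ Cf Zc (Px c) := by
  rw [mem_cf] at hF ⊢
  intro v hv
  show (F v).map _ = none
  rw [hF v hv]
  rfl

variable [Group S] [MulDistribMulAction P S]

/-- extension of the data of the letters -/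
def xeG (d₀ : E) (X : FD A P S) (e : J0 X → E) (j : Pl K ⊕ Fin A.g) : E :=
  if h : j ∈ J0 X then e ⟨j, h⟩ else d₀

variable (G : SG c S) (B : SD D Q A) (X : FD A P S) (W : WF A)

/-- the bijection -/
theorem rei_bijG [Fintype S] [Fintype P] [Fintype E] [Fintype U] [Zero U] (d₀ : E) (T : ℝ)
    (Zc : Finset (Pl K))
    (hZE : Disjoint Zc X.E) (hZ0 : Disjoint Zc D.S0) (f : Pl K → Option (Px c))
    (hf : f ∈ Cf Zc (Px c)) (H : (Pl K → S) → (Pl K ⊕ Fin A.g → E) →
      (Pl K → U) → ℂ) :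
    ∑ τ : V0 B X → S, ∑ e : J0 X → E, ∑ F ∈ (Cf Zc (LbG c S E U)).filter
        (fun F => lfG F = f), H (tfG (xt0 B X τ) F) (efG (xeG d₀ X e) F) (kfG F) =
      ∑ t : (adf G B X W T Zc f).Vf → S, ∑ e : (adf G B X W T Zc f).Jf → E,
        ∑ κ : sp Zc f → U, H ((adf G B X W T Zc f).ex t)
          (eeG d₀ (adf G B X W T Zc f) e) (k0 (sp Zc f) κ) := by
  have hV := vf_iff G B X W T Zc f
  have hJ := jf_iff G B X W T Zc f
  set Y := adf G B X W T Zc f with hY
  have hfn : ∀ v, v ∉ sp Zc f → f v = none := by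
    intro v hv
    by_contra h
    by_cases hz : v ∈ Zc
    · exact hv (mem_sp.2 ⟨hz, h⟩)
    · exact h ((mem_cf.1 hf) v hz)
  have hV0 : ∀ v, v ∈ V0 B X → v ∉ sp Zc f := by
    intro v hv hs
    have hz := (mem_sp.1 hs).1
    unfold V0 at hv
    rw [Finset.mem_union] at hv
    rcases hv with h | h
    · exact Finset.disjoint_left.1 hZE hz h
    · obtain ⟨i, -, rfl⟩ := Finset.mem_image.1 h
      exact Finset.disjoint_left.1 hZ0 hz (B.mem i)
  have hJ0 : ∀ v, Sum.inl v ∈ J0 X → v ∉ sp Zc f := by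
    intro v hv hs
    unfold H73.S3.J0 at hv
    rw [Finset.inl_mem_disjSum] at hv
    exact Finset.disjoint_left.1 hZE (mem_sp.1 hs).1 hv
  have hJr : ∀ i, Sum.inr i ∈ J0 X := by
    intro i
    unfold H73.S3.J0
    rw [Finset.inr_mem_disjSum]
    exact Finset.mem_univ _
  -- components of `F`
  have hFn : ∀ F : Pl K → Option (LbG c S E U), lfG F = f → ∀ v, v ∉ sp Zc f → F v = none := by
    intro F hF v hv
    have h1 := congrFun hF v
    rw [hfn v hv] at h1
    exact Option.map_eq_none_iff.1 h1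
  have hex : ∀ (τ : V0 B X → S) (F : Pl K → Option (LbG c S E U)), lfG F = f →
      Y.ex (fun v => tfG (xt0 B X τ) F v) = tfG (xt0 B X τ) F := by
    intro τ F hF
    funext v
    unfold AD.ex
    split_ifs with h
    · rfl
    · rw [hV, not_or] at h
      unfold tfG
      rw [hFn F hF v h.1]
      show 1 = xt0 B X τ v
      unfold xt0
      rw [dif_neg h.2]
  have hee : ∀ (e : J0 X → E) (F : Pl K → Option (LbG c S E U)), lfG F = f →
      eeG d₀ Y (fun j => efG (xeG d₀ X e) F j) = efG (xeG d₀ X e) F := by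
    intro e F hF
    funext j
    unfold eeG
    split_ifs with h
    · rfl
    · rw [hJ, not_or] at h
      rcases j with v | i
      · have h1 : v ∉ sp Zc f := fun hv => h.1 ⟨v, hv, rfl⟩
        unfold efG
        show _ = (F v).elim (xeG d₀ X e (Sum.inl v)) fun a => a.2.2.1
        rw [hFn F hF v h1]
        show _ = xeG d₀ X e (Sum.inl v)
        unfold xeG
        rw [dif_neg h.2]
      · exact absurd (hJr i) h.2
  have hkk : ∀ F : Pl K → Option (LbG c S E U), lfG F = f →
      k0 (sp Zc f) (fun v => kfG F v) = kfG F := by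
    intro F hF
    funext v
    unfold k0
    split_ifs with h
    · rfl
    · unfold kfG
      rw [hFn F hF v h]
      rfl
  -- the inverse map
  let mk : (Pl K → S) → (Pl K ⊕ Fin A.g → E) → (Pl K → U) →
      Pl K → Option (LbG c S E U) := fun t e κ v =>
    (f v).map fun s => (s, t v, e (Sum.inl v), κ v)
  have mk_lf : ∀ t e κ, lfG (mk t e κ) = f := by
    intro t e κ
    funext v
    show ((f v).map _).map _ = f v
    cases f v <;> rfl
  have mk_tf : ∀ (t : Y.Vf → S) e κ, tfG (xt0 B X fun v => Y.ex t v) (mk (Y.ex t) e κ) = Y.ex t := by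
    intro t e κ
    funext v
    unfold tfG
    by_cases hv : v ∈ sp Zc f
    · obtain ⟨s, hs⟩ := Option.ne_none_iff_exists'.1 (mem_sp.1 hv).2
      show ((f v).map _).elim _ _ = _
      rw [hs]
      rfl
    · show ((f v).map _).elim _ _ = _
      rw [hfn v hv]
      show xt0 B X (fun v => Y.ex t v) v = Y.ex t v
      unfold xt0
      split_ifs with h
      · rfl
      · unfold AD.ex
        rw [dif_neg (by rw [hV, not_or]; exact ⟨hv, h⟩)]
  have mk_ef : ∀ t (e : Y.Jf → E) κ,
      efG (xeG d₀ X fun j => eeG d₀ Y e j) (mk t (eeG d₀ Y e) κ) = eeG d₀ Y e := by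
    intro t e κ
    funext j
    unfold efG
    rcases j with v | i
    · by_cases hv : v ∈ sp Zc f
      · obtain ⟨s, hs⟩ := Option.ne_none_iff_exists'.1 (mem_sp.1 hv).2
        show ((f v).map _).elim _ _ = _
        rw [hs]
        rfl
      · show ((f v).map _).elim _ _ = _
        rw [hfn v hv]
        show xeG d₀ X (fun j => eeG d₀ Y e j) (Sum.inl v) = eeG d₀ Y e (Sum.inl v)
        unfold xeG
        split_ifs with h
        · rfl
        · unfold eeG
          rw [dif_neg (by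
            rw [hJ, not_or]
            refine ⟨?_, h⟩
            rintro ⟨w, hw, hw'⟩
            exact hv (Sum.inl_injective hw' ▸ hw))]
    · show xeG d₀ X (fun j => eeG d₀ Y e j) (Sum.inr i) = eeG d₀ Y e (Sum.inr i)
      unfold xeG
      rw [dif_pos (hJr i)]
  have mk_kf : ∀ t e (κ : sp Zc f → U),
      kfG (mk t e (k0 (sp Zc f) κ)) = k0 (sp Zc f) κ := by
    intro t e κ
    funext v
    unfold kfG
    by_cases hv : v ∈ sp Zc f
    · obtain ⟨s, hs⟩ := Option.ne_none_iff_exists'.1 (mem_sp.1 hv).2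
      show ((f v).map _).elim _ _ = _
      rw [hs]
      rfl
    · show ((f v).map _).elim _ _ = _
      rw [hfn v hv]
      unfold k0
      rw [dif_neg hv]
      rfl
  have mk_mk : ∀ (τ : V0 B X → S) (e : J0 X → E) (F : Pl K → Option (LbG c S E U)),
      lfG F = f → mk (tfG (xt0 B X τ) F) (efG (xeG d₀ X e) F) (kfG F) = F := by
    intro τ e F hF
    funext v
    show (f v).map _ = F v
    rw [← hF]
    show ((F v).map _).map _ = F v
    unfold tfG efG kfG
    show ((F v).map _).map (fun s => (s, (F v).elim _ _, (F v).elim _ _, (F v).elim _ _)) = F v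
    cases F v <;> rfl
  have h1 : ∑ τ : V0 B X → S, ∑ e : J0 X → E, ∑ F ∈ (Cf Zc (LbG c S E U)).filter
        (fun F => lfG F = f), H (tfG (xt0 B X τ) F) (efG (xeG d₀ X e) F) (kfG F) =
      ∑ z ∈ (Finset.univ : Finset (V0 B X → S)) ×ˢ ((Finset.univ : Finset (J0 X → E)) ×ˢ
        (Cf Zc (LbG c S E U)).filter (fun F => lfG F = f)),
        H (tfG (xt0 B X z.1) z.2.2) (efG (xeG d₀ X z.2.1) z.2.2) (kfG z.2.2) := by
    rw [Finset.sum_product]
    refine Finset.sum_congr rfl fun τ _ => ?_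
    rw [Finset.sum_product]
  have h2 : ∑ t : Y.Vf → S, ∑ e : Y.Jf → E, ∑ κ : sp Zc f → U,
        H (Y.ex t) (eeG d₀ Y e) (k0 (sp Zc f) κ) =
      ∑ z ∈ (Finset.univ : Finset (Y.Vf → S)) ×ˢ ((Finset.univ : Finset (Y.Jf → E)) ×ˢ
        (Finset.univ : Finset (sp Zc f → U))),
        H (Y.ex z.1) (eeG d₀ Y z.2.1) (k0 (sp Zc f) z.2.2) := by
    rw [Finset.sum_product]
    refine Finset.sum_congr rfl fun τ _ => ?_
    rw [Finset.sum_product]
  rw [h1, h2]
  refine Finset.sum_bij' (fun z _ => (fun v => tfG (xt0 B X z.1) z.2.2 v,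
      fun j => efG (xeG d₀ X z.2.1) z.2.2 j, fun v => kfG z.2.2 v))
    (fun z _ => (fun v => Y.ex z.1 v, fun j => eeG d₀ Y z.2.1 j,
      mk (Y.ex z.1) (eeG d₀ Y z.2.1) (k0 (sp Zc f) z.2.2))) ?_ ?_ ?_ ?_ ?_
  · intro z _
    simp only [Finset.mem_product, Finset.mem_univ, and_self]
  · intro z _
    simp only [Finset.mem_product, Finset.mem_univ, true_and, Finset.mem_filter]
    refine ⟨?_, mk_lf _ _ _⟩
    rw [mem_cf]
    intro v hv
    show (f v).map _ = none
    rw [(mem_cf.1 hf) v hv]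
    rfl
  · rintro ⟨τ, e, F⟩ hz
    have hF : lfG F = f := by
      rw [Finset.mem_product, Finset.mem_product, Finset.mem_filter] at hz
      exact hz.2.2.2
    show ((fun v : V0 B X => Y.ex (fun v => tfG (xt0 B X τ) F v) v),
      (fun j : J0 X => eeG d₀ Y (fun j => efG (xeG d₀ X e) F j) j),
      mk (Y.ex (fun v => tfG (xt0 B X τ) F v)) (eeG d₀ Y (fun j => efG (xeG d₀ X e) F j))
        (k0 (sp Zc f) (fun v => kfG F v))) = (τ, e, F)
    rw [hex τ F hF, hee e F hF, hkk F hF, mk_mk τ e F hF]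
    refine Prod.ext ?_ (Prod.ext ?_ rfl)
    · funext v
      show tfG (xt0 B X τ) F v = τ v
      unfold tfG
      rw [hFn F hF v (hV0 v v.2)]
      show xt0 B X τ v = _
      unfold xt0
      rw [dif_pos v.2]
    · funext j
      show efG (xeG d₀ X e) F j = e j
      obtain ⟨j, hj⟩ := j
      rcases j with v | i
      · show (F v).elim (xeG d₀ X e (Sum.inl v)) _ = _
        rw [hFn F hF v (hJ0 v hj)]
        show xeG d₀ X e (Sum.inl v) = _
        unfold xeG
        rw [dif_pos hj]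
      · show xeG d₀ X e (Sum.inr i) = _
        unfold xeG
        rw [dif_pos hj]
  · rintro ⟨t, e, κ⟩ _
    show ((fun v : Y.Vf => tfG (xt0 B X fun v => Y.ex t v) (mk (Y.ex t) (eeG d₀ Y e)
        (k0 (sp Zc f) κ)) v),
      (fun j : Y.Jf => efG (xeG d₀ X fun j => eeG d₀ Y e j) (mk (Y.ex t) (eeG d₀ Y e)
        (k0 (sp Zc f) κ)) j),
      (fun v : sp Zc f => kfG (mk (Y.ex t) (eeG d₀ Y e) (k0 (sp Zc f) κ)) v)) = (t, e, κ)
    rw [mk_tf, mk_ef, mk_kf]
    refine Prod.ext ?_ (Prod.ext ?_ ?_)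
    · funext v
      show Y.ex t v = t v
      unfold AD.ex
      rw [dif_pos v.2]
    · funext j
      show eeG d₀ Y e j = e j
      unfold eeG
      rw [dif_pos j.2]
    · funext v
      show k0 (sp Zc f) κ v = κ v
      unfold k0
      rw [dif_pos v.2]
  · rintro ⟨τ, e, F⟩ hz
    have hF : lfG F = f := by
      rw [Finset.mem_product, Finset.mem_product, Finset.mem_filter] at hz
      exact hz.2.2.2
    show H (tfG (xt0 B X τ) F) (efG (xeG d₀ X e) F) (kfG F) =
      H (Y.ex (fun v => tfG (xt0 B X τ) F v)) (eeG d₀ Y (fun j => efG (xeG d₀ X e) F j))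
        (k0 (sp Zc f) (fun v => kfG F v))
    rw [hex τ F hF, hee e F hF, hkk F hF]

/-- the sum over all enriched configurations is the sum over the configurations of the sums over the conjugators, data and values -/
theorem rei_sumG [Fintype S] [Fintype P] [Fintype E] [Fintype U] [Zero U] (d₀ : E) (T : ℝ)
    (Zc : Finset (Pl K)) (hZE : Disjoint Zc X.E) (hZ0 : Disjoint Zc D.S0)
    (H : (Pl K → Option (Px c)) → (Pl K → S) → (Pl K ⊕ Fin A.g → E) → (Pl K → U) → ℂ) :
    ∑ τ : V0 B X → S, ∑ e : J0 X → E, ∑ F ∈ Cf Zc (LbG c S E U),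
        H (lfG F) (tfG (xt0 B X τ) F) (efG (xeG d₀ X e) F) (kfG F) =
      ∑ f ∈ Cf Zc (Px c), ∑ t : (adf G B X W T Zc f).Vf → S,
        ∑ e : (adf G B X W T Zc f).Jf → E, ∑ κ : sp Zc f → U, H f ((adf G B X W T Zc f).ex t)
          (eeG d₀ (adf G B X W T Zc f) e) (k0 (sp Zc f) κ) := by
  have h1 : ∀ (τ : V0 B X → S) (e : J0 X → E), ∑ F ∈ Cf Zc (LbG c S E U),
      H (lfG F) (tfG (xt0 B X τ) F) (efG (xeG d₀ X e) F) (kfG F) =
      ∑ f ∈ Cf Zc (Px c), ∑ F ∈ (Cf Zc (LbG c S E U)).filter (fun F => lfG F = f),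
        H f (tfG (xt0 B X τ) F) (efG (xeG d₀ X e) F) (kfG F) := by
    intro τ e
    rw [← Finset.sum_fiberwise_of_maps_to (fun F hF => lfG_cf hF)]
    refine Finset.sum_congr rfl fun f _ => Finset.sum_congr rfl fun F hF => ?_
    rw [Finset.mem_filter] at hF
    rw [hF.2]
  simp_rw [h1]
  have h2 : ∑ τ : V0 B X → S, ∑ e : J0 X → E, ∑ f ∈ Cf Zc (Px c),
      ∑ F ∈ (Cf Zc (LbG c S E U)).filter (fun F => lfG F = f),
        H f (tfG (xt0 B X τ) F) (efG (xeG d₀ X e) F) (kfG F) =
      ∑ f ∈ Cf Zc (Px c), ∑ τ : V0 B X → S, ∑ e : J0 X → E,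
      ∑ F ∈ (Cf Zc (LbG c S E U)).filter (fun F => lfG F = f),
        H f (tfG (xt0 B X τ) F) (efG (xeG d₀ X e) F) (kfG F) := by
    rw [Finset.sum_comm (s := Cf Zc (Px c))]
    refine Finset.sum_congr rfl fun τ _ => ?_
    rw [Finset.sum_comm]
  rw [h2]
  refine Finset.sum_congr rfl fun f hf => ?_
  exact rei_bijG G B X W d₀ T Zc hZE hZ0 f hf (H f)

end H35.OW
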