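import Pool.Agent.H35.OW.Lab
import Pool.Agent.H48.OW.Ch
import Pool.Agent.H73.S3.Rem

/-!
# [OW I] coloured configurations (MP_b39724_nt, theorem OW; think 1838 (8))

* `own v w`: the index `k` with `v k = w`. `clr v f`: the configuration with letters in `Px (cO hp c n)`: the places `v k` get the own index `k`, the other ones `none`.
* `Col g F v`: the labels of `F` (with letter `g`) have the own indices given by `v`.
* `remG`: sums over configurations `F` and tuples of places of the support are sums over `l`, `b`, `v ∈ Fr b` of the values at `up b v l`.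
* `colG`: sums over plain configurations `f`, tuples `v` and enriched configurations over `clr v f` are sums over `l`, `b`, `v ∈ Fr b`.
-/

set_option autoImplicit false

open scoped Classical

noncomputable section

namespace H35.OW

open H35.CF H73.S3

attribute [local instance 50] Fintype.ofFinite

section own

variable {V : Type} {n : ℕ}

/-- the own index of a place -/
def own (v : Fin n → V) (w : V) : Option (Fin n) :=
  if h : ∃ k, v k = w then some h.choose else none

theorem own_of (v : Fin n → V) (hv : Function.Injective v) (k : Fin n) : own v (v k) = some k := by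
  have h : ∃ j, v j = v k := ⟨k, rfl⟩
  unfold own
  rw [dif_pos h]
  exact congrArg some (hv h.choose_spec)

theorem own_ne (v : Fin n → V) (w : V) (h : ∀ k, v k ≠ w) : own v w = none := by
  unfold own
  rw [dif_neg (by rintro ⟨k, hk⟩; exact h k hk)]

theorem own_some (v : Fin n → V) (w : V) (k : Fin n) (h : own v w = some k) : v k = w := by
  unfold own at h
  split_ifs at h with h1
  have h2 := Option.some.inj h
  rw [← h2]
  exact h1.choose_spec

theorem own_perm (v : Fin n → V) (s : Equiv.Perm V) (w : V) :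
    own (fun k => s (v k)) (s w) = own v w := by
  unfold own
  have h : (∃ k, s (v k) = s w) ↔ ∃ k, v k = w :=
    exists_congr fun k => s.injective.eq_iff
  by_cases h1 : ∃ k, v k = w
  · have h2 := h.2 h1
    rw [dif_pos h2, dif_pos h1]
    congr 2
    funext k
    exact propext s.injective.eq_iff
  · rw [dif_neg h1, dif_neg (mt h.1 h1)]

end own

section cm

variable {V L L' Λ : Type} {n : ℕ} (mk : L → Option (Fin n) → L') (fs : L' → L)
  (ow : L' → Option (Fin n)) (g : Λ → L')

/-- the coloured configuration -/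
def clr (v : Fin n → V) (f : V → Option L) (w : V) : Option L' := (f w).map fun a => mk a (own v w)

/-- the own indices of the labels are those of the tuple -/
def Col (F : V → Option Λ) (v : Fin n → V) : Prop :=
  ∀ w a, F w = some a → ow (g a) = own v w

theorem clr_none (v : Fin n → V) (f : V → Option L) (w : V) : clr mk v f w = none ↔ f w = none := by
  unfold clr
  rw [Option.map_eq_none_iff]

variable {mk fs ow g}

theorem clr_iff (h1 : ∀ a o, fs (mk a o) = a) (h2 : ∀ a o, ow (mk a o) = o)
    (h3 : ∀ x, mk (fs x) (ow x) = x) (F : V → Option Λ) (v : Fin n → V) (f : V → Option L) :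
    (fun w => (F w).map g) = clr mk v f ↔ Col ow g F v ∧ f = fun w => (F w).map fun a => fs (g a) := by
  constructor
  · intro h
    have hw : ∀ w, (F w).map g = (f w).map fun a => mk a (own v w) := fun w => congrFun h w
    constructor
    · intro w a ha
      have h4 := hw w
      rw [ha] at h4
      cases hf : f w with
      | none =>
        rw [hf] at h4
        exact absurd h4 (by simp)
      | some b =>
        rw [hf] at h4
        have h5 : g a = mk b (own v w) := Option.some.inj h4
        rw [h5, h2]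
    · funext w
      have h4 := hw w
      cases hF : F w with
      | none =>
        rw [hF] at h4
        show f w = none
        exact Option.map_eq_none_iff.1 h4.symm
      | some a =>
        rw [hF] at h4
        cases hf : f w with
        | none =>
          rw [hf] at h4
          exact absurd h4 (by simp)
        | some b =>
          rw [hf] at h4
          have h5 : g a = mk b (own v w) := Option.some.inj h4
          show some b = some (fs (g a))
          rw [h5, h1]
  · rintro ⟨h, rfl⟩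
    funext w
    show (F w).map g = ((F w).map fun a => fs (g a)).map fun a => mk a (own v w)
    cases hF : F w with
    | none => rfl
    | some a =>
      show some (g a) = some (mk (fs (g a)) (own v w))
      rw [← h w a hF, h3]

end cm

section rem

theorem mem_tp {V Λ : Type} {Z : Finset V} {W : V → Prop} {f : V → Option Λ} {n : ℕ}
    {v : Fin n → V} : v ∈ Tp Z W f n ↔ (∀ k, v k ∈ Z ∧ f (v k) ≠ none ∧ W (v k)) ∧
      Function.Injective v := by
  unfold Tp
  rw [Finset.mem_filter, Fintype.mem_piFinset]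
  constructor
  · rintro ⟨h1, h2⟩
    refine ⟨fun k => ?_, h2⟩
    have h3 := Finset.mem_filter.1 (h1 k)
    have h4 := mem_sp.1 h3.1
    exact ⟨h4.1, h4.2, h3.2⟩
  · rintro ⟨h1, h2⟩
    refine ⟨fun k => Finset.mem_filter.2 ⟨mem_sp.2 ⟨(h1 k).1, (h1 k).2.1⟩, (h1 k).2.2⟩, h2⟩

variable {V Λ : Type} [Fintype Λ]

private theorem col_up (Z : Finset V) (W : V → Prop) {m : ℕ} (c : V → Option Λ)
    (q : Fin m → V) (l : Fin m → Λ) (hc : c ∈ Cf Z Λ) (hq : q ∈ H35.CF.Fr Z W c m) :
    up c q l ∈ Cf Z Λ := by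
  rw [mem_cf] at hc ⊢
  rw [mem_fr] at hq
  intro v hv
  rw [up_ne c q l v]
  · exact hc v hv
  · rintro k rfl
    exact hv (hq.1 k).1

/-- sums over configurations and tuples of places of the support -/
theorem remG (Z : Finset V) (W : V → Prop) (m : ℕ) (φ : (V → Option Λ) → (Fin m → V) → ℂ) :
    ∑ f ∈ Cf Z Λ, ∑ v ∈ Tp Z W f m, φ f v = ∑ l : Fin m → Λ, ∑ b ∈ Cf Z Λ,
      ∑ v ∈ H35.CF.Fr Z W b m, φ (up b v l) v := by
  have h1 : ∑ l : Fin m → Λ, ∑ b ∈ Cf Z Λ, ∑ v ∈ H35.CF.Fr Z W b m, φ (up b v l) v =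
      ∑ x ∈ (Finset.univ : Finset (Fin m → Λ)).sigma fun _ =>
        (Cf Z Λ).sigma fun b => H35.CF.Fr Z W b m, φ (up x.2.1 x.2.2 x.1) x.2.2 := by
    rw [Finset.sum_sigma]
    refine Finset.sum_congr rfl fun l _ => ?_
    rw [Finset.sum_sigma]
  rw [h1, Finset.sum_sigma']
  symm
  refine Finset.sum_bij (fun x _ => ⟨up x.2.1 x.2.2 x.1, x.2.2⟩) ?_ ?_ ?_ ?_
  · rintro ⟨l, b, v⟩ hx
    rw [Finset.mem_sigma, Finset.mem_sigma] at hx
    have hb : b ∈ Cf Z Λ := hx.2.1
    have hv : v ∈ H35.CF.Fr Z W b m := hx.2.2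
    rw [Finset.mem_sigma]
    refine ⟨col_up Z W b v l hb hv, ?_⟩
    have hv' := mem_fr.1 hv
    refine mem_tp.2 ⟨fun k => ⟨(hv'.1 k).1, ?_, (hv'.1 k).2.1⟩, hv'.2⟩
    show up b v l (v k) ≠ none
    rw [up_of b v l hv'.2 k]
    exact Option.some_ne_none _
  · rintro ⟨l, b, v⟩ hx ⟨l', b', v'⟩ hx' he
    rw [Finset.mem_sigma, Finset.mem_sigma] at hx hx'
    have hv := mem_fr.1 (show v ∈ H35.CF.Fr Z W b m from hx.2.2)
    have hv1 := mem_fr.1 (show v' ∈ H35.CF.Fr Z W b' m from hx'.2.2)
    have he1 : up b v l = up b' v' l' := congrArg Sigma.fst he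
    have he2 : v = v' := eq_of_heq (Sigma.mk.inj he).2
    subst he2
    have hl : l = l' := by
      funext k
      have h2 := congrFun he1 (v k)
      rw [up_of b v l hv.2 k, up_of b' v l' hv.2 k] at h2
      exact Option.some.inj h2
    subst hl
    have hb : b = b' := by
      funext w
      by_cases hw : ∃ k, v k = w
      · obtain ⟨k, rfl⟩ := hw
        rw [(hv.1 k).2.2, (hv1.1 k).2.2]
      · have h2 := congrFun he1 w
        rw [up_ne b v l w fun k hk => hw ⟨k, hk⟩, up_ne b' v l w fun k hk => hw ⟨k, hk⟩] at h2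
        exact h2
    subst hb
    rfl
  · rintro ⟨f, v⟩ hx
    rw [Finset.mem_sigma] at hx
    have hf : f ∈ Cf Z Λ := hx.1
    have hv := mem_tp.1 (show v ∈ Tp Z W f m from hx.2)
    have h2 : ∀ k, ∃ x, f (v k) = some x := fun k => Option.ne_none_iff_exists'.1 (hv.1 k).2.1
    choose l hl using h2
    refine ⟨⟨l, fun w => if ∃ k, v k = w then none else f w, v⟩, ?_, ?_⟩
    · rw [Finset.mem_sigma, Finset.mem_sigma]
      refine ⟨Finset.mem_univ _, ?_, ?_⟩
      · show (fun w => if ∃ k, v k = w then none else f w) ∈ Cf Z Λ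
        rw [mem_cf]
        intro w hw
        show (if ∃ k, v k = w then none else f w) = none
        split_ifs
        · rfl
        · exact mem_cf.1 hf w hw
      · show v ∈ H35.CF.Fr Z W (fun w => if ∃ k, v k = w then none else f w) m
        rw [mem_fr]
        refine ⟨fun k => ⟨(hv.1 k).1, (hv.1 k).2.2, ?_⟩, hv.2⟩
        exact if_pos ⟨k, rfl⟩
    · have h3 : up (fun w => if ∃ k, v k = w then none else f w) v l = f := by
        funext w
        by_cases hw : ∃ k, v k = w
        · obtain ⟨k, rfl⟩ := hw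
          rw [up_of _ v l hv.2 k, hl k]
        · rw [up_ne _ v l w fun k hk => hw ⟨k, hk⟩]
          exact if_neg hw
      show (⟨up (fun w => if ∃ k, v k = w then none else f w) v l, v⟩ :
        (_ : V → Option Λ) × (Fin m → V)) = ⟨f, v⟩
      rw [h3]
  · intro x _
    rfl

end rem

section col

variable {V L L' Λ : Type} [Fintype L] [Fintype Λ] {n : ℕ} {mk : L → Option (Fin n) → L'}
  {fs : L' → L} {ow : L' → Option (Fin n)} {g : Λ → L'}

theorem map_cf {M : Type} [Fintype M] {Z : Finset V} (h : Λ → M) {F : V → Option Λ}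
    (hF : F ∈ Cf Z Λ) : (fun w => (F w).map h) ∈ Cf Z M := by
  rw [mem_cf] at hF ⊢
  intro w hw
  show (F w).map h = none
  rw [hF w hw]
  rfl

theorem map_tp {M : Type} {Z : Finset V} {W : V → Prop} (h : Λ → M) {F : V → Option Λ}
    {v : Fin n → V} : v ∈ Tp Z W (fun w => (F w).map h) n ↔ v ∈ Tp Z W F n := by
  rw [mem_tp, mem_tp]
  refine and_congr_left fun _ => forall_congr' fun k => and_congr_right fun _ =>
    and_congr_left fun _ => ?_
  rw [ne_eq, Option.map_eq_none_iff]

/-- sums over plain configurations, tuples and enriched configurations over the coloured one -/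
theorem colG (h1 : ∀ a o, fs (mk a o) = a) (h2 : ∀ a o, ow (mk a o) = o)
    (h3 : ∀ x, mk (fs x) (ow x) = x) (Z : Finset V) (W : V → Prop)
    (H : (V → Option Λ) → (Fin n → V) → ℂ) :
    ∑ f ∈ Cf Z L, ∑ v ∈ Tp Z W f n,
      ∑ F ∈ (Cf Z Λ).filter (fun F => (fun w => (F w).map g) = clr mk v f), H F v =
      ∑ l : Fin n → Λ, ∑ b ∈ Cf Z Λ, ∑ v ∈ H35.CF.Fr Z W b n,
        if Col ow g (up b v l) v then H (up b v l) v else 0 := by
  rw [← remG Z W n fun F v => if Col ow g F v then H F v else 0]
  have e1 : ∑ f ∈ Cf Z L, ∑ v ∈ Tp Z W f n,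
      ∑ F ∈ (Cf Z Λ).filter (fun F => (fun w => (F w).map g) = clr mk v f), H F v =
      ∑ x ∈ (Cf Z L).sigma fun f => (Tp Z W f n).sigma fun v =>
        (Cf Z Λ).filter (fun F => (fun w => (F w).map g) = clr mk v f), H x.2.2 x.2.1 := by
    rw [Finset.sum_sigma]
    refine Finset.sum_congr rfl fun f _ => ?_
    rw [Finset.sum_sigma]
  have e2 : ∑ F ∈ Cf Z Λ, ∑ v ∈ Tp Z W F n, (if Col ow g F v then H F v else 0) =
      ∑ x ∈ (Cf Z Λ).sigma fun F => (Tp Z W F n).filter fun v => Col ow g F v, H x.1 x.2 := by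
    rw [Finset.sum_sigma]
    refine Finset.sum_congr rfl fun F _ => ?_
    rw [Finset.sum_filter]
  rw [e1, e2]
  refine Finset.sum_bij' (fun x _ => ⟨x.2.2, x.2.1⟩)
    (fun x _ => ⟨fun w => (x.1 w).map fun a => fs (g a), x.2, x.1⟩) ?_ ?_ ?_ ?_ ?_
  · rintro ⟨f, v, F⟩ hx
    rw [Finset.mem_sigma, Finset.mem_sigma, Finset.mem_filter] at hx
    obtain ⟨hf, hv, hF, he⟩ := hx
    obtain ⟨c1, c2⟩ := (clr_iff h1 h2 h3 F v f).1 he
    rw [Finset.mem_sigma, Finset.mem_filter]
    refine ⟨hF, ?_, c1⟩
    have hv' : v ∈ Tp Z W f n := hv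
    rw [c2] at hv'
    exact (map_tp _).1 hv'
  · rintro ⟨F, v⟩ hx
    rw [Finset.mem_sigma, Finset.mem_filter] at hx
    obtain ⟨hF, hv, hc⟩ := hx
    rw [Finset.mem_sigma, Finset.mem_sigma, Finset.mem_filter]
    exact ⟨map_cf _ hF, (map_tp _).2 hv, hF, (clr_iff h1 h2 h3 F v _).2 ⟨hc, rfl⟩⟩
  · rintro ⟨f, v, F⟩ hx
    rw [Finset.mem_sigma, Finset.mem_sigma, Finset.mem_filter] at hx
    obtain ⟨hf, hv, hF, he⟩ := hx
    obtain ⟨c1, c2⟩ := (clr_iff h1 h2 h3 F v f).1 he
    show (⟨fun w => (F w).map fun a => fs (g a), v, F⟩ :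
      (_ : V → Option L) × (_ : Fin n → V) × (V → Option Λ)) = ⟨f, v, F⟩
    rw [← c2]
  · rintro ⟨F, v⟩ _
    rfl
  · rintro ⟨f, v, F⟩ _
    rfl

end col

end H35.OW
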