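import Pool.Agent.H73.S3.Rem
import Pool.Agent.H73.S3.Bdo

/-!
# [OW S3] the generic negligible sum, core (MP_b39724_nt; generic form of H73/S3/Neg)

`ngc`: labels `Λ`, amplitude `a`, `‖a‖ ≤ Ca`, which depends on the order of the places only, `‖F‖ ≤ 1`, a property `R f v` of tuples `v` of `n` places such that every rich `f` with
`a f * F f ≠ 0` has a tuple with `R f v`; box inequality for the part of `F (up b v l)` with `R (up b v l) v` and `Cn b v l` (a consequence of `a (up b v l) ≠ 0`): then the sum of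
`[rich] ψ a F` is small. Proof: `rem`, `bdo` with `g b v = [R, rich] a / (Ca Nl)`.
-/

set_option autoImplicit false

open scoped NumberField
open NumberField IsDedekindDomain
open scoped Classical

noncomputable section

namespace H35.OW

open H63.MA H57.AN H35.CF H73.S3

theorem ngc (K : Type) [Field K] [NumberField K] (Λ : Type) [Fintype Λ] (n : ℕ)
    (Ca A₁ ε : ℝ) (hCa : 0 < Ca) (hA : 0 ≤ A₁) (hε : 0 < ε) :
    ∃ C₁ A' C : ℝ, 3 ≤ C₁ ∧ 0 ≤ A' ∧ 0 < C ∧ ∀ Y : ℝ, 3 ≤ Y →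
      ∀ (Z : Finset (Pl K)) (W : Pl K → Prop), (∀ v, W v → Real.exp (Real.log Y ^ ε) < nm v) →
      ∀ ψ : ℝ → ℝ, (∀ t, |ψ t| ≤ 1) → (∀ t, 2 ≤ t → ψ t = 0) → (∀ s t, |ψ s - ψ t| ≤ |s - t|) →
      ∀ (a F : (Pl K → Option Λ) → ℂ) (Rch : (Pl K → Option Λ) → Prop)
        (R : (Pl K → Option Λ) → (Fin n → Pl K) → Prop)
        (Cn : (Pl K → Option Λ) → (Fin n → Pl K) → (Fin n → Λ) → Prop),
      (∀ f ∈ Cf Z Λ, ‖a f‖ ≤ Ca) → (∀ f ∈ Cf Z Λ, ‖F f‖ ≤ 1) →
      (∀ f ∈ Cf Z Λ, Rch f → a f ≠ 0 → F f ≠ 0 → ∃ v ∈ Tp Z W f n, R f v) →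
      (∀ (l : Fin n → Λ), ∀ b ∈ Cf Z Λ, ∀ v ∈ H35.CF.Fr Z W b n, ∀ v' ∈ H35.CF.Fr Z W b n,
        Oe Z b v v' →
        a (up b v l) = a (up b v' l) ∧ (R (up b v l) v ↔ R (up b v' l) v') ∧
        Nl Z W n R (up b v l) = Nl Z W n R (up b v' l) ∧ (Rch (up b v l) ↔ Rch (up b v' l))) →
      (∀ (l : Fin n → Λ), ∀ b ∈ Cf Z Λ, ∀ v ∈ H35.CF.Fr Z W b n, Rch (up b v l) →
        R (up b v l) v → a (up b v l) ≠ 0 → Cn b v l) →
      (∀ (l : Fin n → Λ) (lo hi : Fin n → ℝ),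
        (∀ k, Real.exp (Real.log Y ^ ε) ≤ lo k ∧ lo k ≤ hi k ∧ hi k ≤ 2 * lo k ∧
          hi k ≤ Y ^ C₁) →
        ∑ b ∈ (Cf Z Λ).filter (fun b => nr (sp Z b) ≤ Y ^ C₁ ∧
            ((sp Z b).card : ℝ) ≤ C₁ * (1 + Real.log (Real.log Y))),
          (nr (sp Z b))⁻¹ * (∏ k, lo k)⁻¹ * ‖∑ v ∈ (H35.CF.Fr Z W b n).filter
            (fun v => ∀ k, lo k < nm (v k) ∧ (nm (v k) : ℝ) ≤ hi k),
              (if R (up b v l) v ∧ Cn b v l then F (up b v l) else 0)‖ ≤
          Real.log Y ^ (-A')) →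
      ‖∑ f ∈ Cf Z Λ, (if Rch f then ((ψ (nr (sp Z f) / Y) : ℝ) : ℂ) else 0) * a f * F f‖ ≤
        C * Y * Real.log Y ^ (-A₁) := by
  obtain ⟨C₁, A', C₀, h1, h2, h3, hb⟩ := bdo K Λ n 1 A₁ ε zero_le_one hA hε
  have hC : (0 : ℝ) < ((Fintype.card Λ : ℝ) ^ n + 1) * (Ca * C₀) := by positivity
  refine ⟨C₁, A', _, h1, h2, hC, fun Y hY Z W hW ψ hψ1 hψ2 hψ3 a F Rch R Cn ha hF hex hord hcn
    hbx => ?_⟩
  have hlogY : (0 : ℝ) ≤ Real.log Y ^ (-A₁) :=
    Real.rpow_nonneg (Real.log_nonneg (by linarith)) _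
  have hC0 : (Ca : ℂ) ≠ 0 := by exact_mod_cast hCa.ne'
  rw [rem Z W n R (fun f => (if Rch f then ((ψ (nr (sp Z f) / Y) : ℝ) : ℂ) else 0) * a f * F f)
    (fun f hf hne => by
      have a1 := left_ne_zero_of_mul (left_ne_zero_of_mul hne)
      have a2 := right_ne_zero_of_mul (left_ne_zero_of_mul hne)
      have a3 := right_ne_zero_of_mul hne
      have a4 : Rch f := by
        by_contra hc
        exact a1 (if_neg hc)
      exact hex f hf a4 a2 a3)]
  have hl : ∀ l : Fin n → Λ, ‖∑ b ∈ Cf Z Λ, ∑ v ∈ H35.CF.Fr Z W b n,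
        if R (up b v l) v then
          ((if Rch (up b v l) then ((ψ (nr (sp Z (up b v l)) / Y) : ℝ) : ℂ) else 0) *
            a (up b v l) * F (up b v l)) / (Nl Z W n R (up b v l) : ℂ) else 0‖ ≤
      Ca * (C₀ * Y * Real.log Y ^ (-A₁)) := by
    intro l
    obtain ⟨g, hgd⟩ : ∃ g : (Pl K → Option Λ) → (Fin n → Pl K) → ℂ,
        g = fun b v => if R (up b v l) v ∧ Rch (up b v l) then
          a (up b v l) / ((Nl Z W n R (up b v l) : ℂ) * (Ca : ℂ)) else 0 := ⟨_, rfl⟩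
    obtain ⟨Fl, hFd⟩ : ∃ Fl : (Pl K → Option Λ) → (Fin n → Pl K) → ℂ,
        Fl = fun b v => if R (up b v l) v ∧ Cn b v l then F (up b v l) else 0 := ⟨_, rfl⟩
    have hsum : (∑ b ∈ Cf Z Λ, ∑ v ∈ H35.CF.Fr Z W b n,
        if R (up b v l) v then
          ((if Rch (up b v l) then ((ψ (nr (sp Z (up b v l)) / Y) : ℝ) : ℂ) else 0) *
            a (up b v l) * F (up b v l)) / (Nl Z W n R (up b v l) : ℂ) else 0) =
        (Ca : ℂ) * ∑ b ∈ Cf Z Λ, ∑ v ∈ H35.CF.Fr Z W b n, g b v *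
          ((ψ (nr (sp Z b) * (∏ k, (nm (v k) : ℝ)) / Y) : ℝ) : ℂ) * Fl b v := by
      rw [Finset.mul_sum]
      refine Finset.sum_congr rfl fun b hbm => ?_
      rw [Finset.mul_sum]
      refine Finset.sum_congr rfl fun v hv => ?_
      rw [hgd, hFd]
      beta_reduce
      by_cases c1 : R (up b v l) v
      · rw [if_pos c1]
        by_cases c2 : Rch (up b v l)
        · have c12 : R (up b v l) v ∧ Rch (up b v l) := ⟨c1, c2⟩
          rw [if_pos c12, if_pos c2]
          have e1 : nr (sp Z (up b v l)) = nr (sp Z b) * ∏ k, (nm (v k) : ℝ) :=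
            H1.BD.sp_up_prod Z W b v l hv fun v => (nm v : ℝ)
          rw [e1]
          by_cases c3 : a (up b v l) = 0
          · rw [c3]
            simp
          · have c4 : R (up b v l) v ∧ Cn b v l := ⟨c1, hcn l b hbm v hv c2 c1 c3⟩
            rw [if_pos c4]
            field_simp
        · rw [if_neg c2, if_neg fun h => c2 h.2]
          simp
      · rw [if_neg c1, if_neg fun h => c1 h.1, if_neg fun h => c1 h.1]
        simp
    rw [hsum, norm_mul, Complex.norm_real, Real.norm_of_nonneg hCa.le]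
    refine mul_le_mul_of_nonneg_left ?_ hCa.le
    refine hb Y hY Z W hW ψ hψ1 hψ2 hψ3 g Fl ?_ ?_ ?_ ?_
    · intro b hbm v hv
      rw [hgd]
      beta_reduce
      split_ifs with c1
      · rw [norm_div, norm_mul, Complex.norm_natCast, Complex.norm_real,
          Real.norm_of_nonneg hCa.le]
        have hN : (1 : ℝ) ≤ (Nl Z W n R (up b v l) : ℝ) := by
          have a1 : 0 < Nl Z W n R (up b v l) := by
            unfold Nl
            rw [Finset.card_pos]
            refine ⟨v, Finset.mem_filter.2 ⟨?_, c1.1⟩⟩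
            unfold Tp
            have hv' := mem_fr.1 hv
            rw [Finset.mem_filter, Fintype.mem_piFinset]
            refine ⟨fun k => ?_, hv'.2⟩
            rw [Finset.mem_filter, mem_sp, up_of b v l hv'.2 k]
            exact ⟨⟨(hv'.1 k).1, Option.some_ne_none _⟩, (hv'.1 k).2.1⟩
          exact_mod_cast a1
        refine div_le_one_of_le₀ ?_ (by positivity)
        refine (ha _ (H1.BD.up_mem Z W b v l hbm hv)).trans ?_
        nlinarith
      · rw [norm_zero]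
        exact zero_le_one
    · intro b hbm v hv v' hv' ho
      obtain ⟨o1, o2, o3, o4⟩ := hord l b hbm v hv v' hv' ho
      rw [hgd]
      beta_reduce
      rw [o1, o3]
      refine if_congr ?_ rfl rfl
      rw [o2, o4]
    · intro b hbm v hv
      rw [hFd, one_pow]
      beta_reduce
      split_ifs with c1
      · exact hF _ (H1.BD.up_mem Z W b v l hbm hv)
      · rw [norm_zero]
        exact zero_le_one
    · intro lo hi hlh
      have h5 := hbx l lo hi hlh
      rw [hFd]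
      exact h5
  refine (norm_sum_le _ _).trans ?_
  refine (Finset.sum_le_card_nsmul _ _ _ fun l _ => hl l).trans ?_
  rw [nsmul_eq_mul, Finset.card_univ, Fintype.card_fun, Fintype.card_fin]
  push_cast
  have hY0 : (0 : ℝ) < Y := by linarith
  have e1 : ((Fintype.card Λ : ℝ) ^ n) * (Ca * (C₀ * Y * Real.log Y ^ (-A₁))) ≤
      ((Fintype.card Λ : ℝ) ^ n + 1) * (Ca * (C₀ * Y * Real.log Y ^ (-A₁))) :=
    mul_le_mul_of_nonneg_right (by linarith) (by positivity)
  refine e1.trans (le_of_eq ?_)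
  ring

end H35.OW
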