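import Pool.Agent.H35.OW.Syg
import Pool.Agent.H35.OW.Ngc
import Pool.Agent.H73.S3.Neg

/-!
# [OW S3] the generic negligible sum (MP_b39724_nt; generic form of H73/S3/Neg)

Labels `Λ` with a letter `g : Λ → Px c`, data `τ`, `e` at the fixed places and letters, amplitudes `a`, functions `F`, properties `R` of tuples of `n` places, `Cn`.
`ngG`: if `a`, `R` are preserved by symmetries (`SyG`), every rich `f` with `a F ≠ 0` has a tuple with `R`, `a (up b v l) ≠ 0` implies `Cn`, and the box inequality holds for the part of `F` with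
`R` and `Cn`, then the sum of `wR a F` is small. Proof: `ngc`, `sy_ex`.
-/

set_option autoImplicit false

open scoped NumberField commutatorElement
open IsDedekindDomain
open scoped Classical

noncomputable section

namespace H35.OW

open H63.MA H38.BB H38.BG H57.PC H57.BRA H77.WD H77.WE H77.PC3 H35.CF H35.UB H77.S3 H71.S3 H1.S3
open H73.S3

attribute [local instance 50] Fintype.ofFinite

variable {K : Type} [Field K] [NumberField K] {Ω : Type} [Field Ω] [Algebra K Ω]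
  {p N : ℕ} {ζ : K} {D : RD0 K p ζ} {Q : DP K Ω} {A : GS D Ω} {P : Type} [Group P]
  {c : CL p N P} {S : Type} [Group S] [MulDistribMulAction P S]

/-- a symmetry takes a tuple of places of the support to a tuple of places of the support -/
theorem tp_fr {Λ : Type} (Z : Finset (Pl K)) (W : Pl K → Prop) {n : ℕ} (b : Pl K → Option Λ)
    (v : Fin n → Pl K) (l : Fin n → Λ) (hv : v ∈ H35.CF.Fr Z W b n) :
    v ∈ Tp Z W (up b v l) n := by
  have hv' := mem_fr.1 hv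
  unfold Tp
  rw [Finset.mem_filter, Fintype.mem_piFinset]
  refine ⟨fun k => ?_, hv'.2⟩
  rw [Finset.mem_filter, mem_sp, up_of b v l hv'.2 k]
  exact ⟨⟨(hv'.1 k).1, Option.some_ne_none _⟩, (hv'.1 k).2.1⟩

theorem ngG [Fintype S] [Fintype P] (G : SG c S) (B : SD D Q A) (q : ℕ) (Λ : Type) [Fintype Λ]
    (g : Λ → Px c) (E : Type) [Fintype E] [Nonempty E] (n M c₀ g₀ : ℕ) (Ca A₁ ε : ℝ)
    (hCa : 0 < Ca) (hA : 0 ≤ A₁) (hε : 0 < ε) :
    ∃ C₁ A' C : ℝ, 3 ≤ C₁ ∧ 0 ≤ A' ∧ 0 < C ∧ ∀ Y : ℝ, 3 ≤ Y →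
      ∀ (k Mw : ℕ) (X : FD A P S) (W : WF A) (Zc : Finset (Pl K)), X.E.card ≤ g₀ →
        NgOk G B X W k Mw q c₀ (Real.exp (Real.log Y ^ ε)) Zc →
      ∀ ψ : ℝ → ℝ, (∀ t, |ψ t| ≤ 1) → (∀ t, 2 ≤ t → ψ t = 0) → (∀ s t, |ψ s - ψ t| ≤ |s - t|) →
      ∀ (a F : (V0 B X → S) → (H73.S3.J0 X → E) → (Pl K → Option Λ) → ℂ)
        (R : (V0 B X → S) → (H73.S3.J0 X → E) → (Pl K → Option Λ) → (Fin n → Pl K) → Prop)
        (Cn : (V0 B X → S) → (H73.S3.J0 X → E) → (Pl K → Option Λ) → (Fin n → Pl K) →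
          (Fin n → Λ) → Prop),
      (∀ τ e, ∀ f ∈ Cf Zc Λ, ‖a τ e f‖ ≤ Ca) → (∀ τ e, ∀ f ∈ Cf Zc Λ, ‖F τ e f‖ ≤ 1) →
      (∀ τ e, ∀ f ∈ Cf Zc Λ, Rich X W (Real.exp (Real.log Y ^ ε)) Zc M (fun v => (f v).map g) →
        a τ e f ≠ 0 → F τ e f ≠ 0 →
        ∃ v ∈ Tp Zc (PPc X W (Real.exp (Real.log Y ^ ε))) f n, R τ e f v) →
      (∀ τ e, ∀ f₁ ∈ Cf Zc Λ, ∀ f₂ ∈ Cf Zc Λ, ∀ s : Equiv.Perm (Pl K),
        SyG X W (Real.exp (Real.log Y ^ ε)) Zc f₁ f₂ s → a τ e f₁ = a τ e f₂) →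
      (∀ τ e, ∀ f₁ ∈ Cf Zc Λ, ∀ f₂ ∈ Cf Zc Λ, ∀ s : Equiv.Perm (Pl K),
        SyG X W (Real.exp (Real.log Y ^ ε)) Zc f₁ f₂ s →
        ∀ v ∈ Tp Zc (PPc X W (Real.exp (Real.log Y ^ ε))) f₁ n,
          (R τ e f₁ v ↔ R τ e f₂ fun k => s (v k))) →
      (∀ τ e, ∀ (l : Fin n → Λ), ∀ b ∈ Cf Zc Λ,
        ∀ v ∈ H35.CF.Fr Zc (PPc X W (Real.exp (Real.log Y ^ ε))) b n,
          Rich X W (Real.exp (Real.log Y ^ ε)) Zc M (fun w => (up b v l w).map g) →
          R τ e (up b v l) v → a τ e (up b v l) ≠ 0 → Cn τ e b v l) →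
      (∀ τ e, ∀ (l : Fin n → Λ) (lo hi : Fin n → ℝ),
        (∀ k, Real.exp (Real.log Y ^ ε) ≤ lo k ∧ lo k ≤ hi k ∧ hi k ≤ 2 * lo k ∧
          hi k ≤ Y ^ C₁) →
        ∑ b ∈ (Cf Zc Λ).filter (fun b => nr (sp Zc b) ≤ Y ^ C₁ ∧
            ((sp Zc b).card : ℝ) ≤ C₁ * (1 + Real.log (Real.log Y))),
          (nr (sp Zc b))⁻¹ * (∏ k, lo k)⁻¹ *
            ‖∑ v ∈ (H35.CF.Fr Zc (PPc X W (Real.exp (Real.log Y ^ ε))) b n).filter
              (fun v => ∀ k, lo k < nm (v k) ∧ (nm (v k) : ℝ) ≤ hi k),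
              (if R τ e (up b v l) v ∧ Cn τ e b v l then F τ e (up b v l) else 0)‖ ≤
          Real.log Y ^ (-A')) →
      ‖∑ τ : V0 B X → S, ∑ e : H73.S3.J0 X → E, ∑ f ∈ Cf Zc Λ,
        wR X W (Real.exp (Real.log Y ^ ε)) Zc M ψ Y (fun v => (f v).map g) * a τ e f *
          F τ e f‖ ≤ C * Y * Real.log Y ^ (-A₁) := by
  have hnS : (1 : ℝ) ≤ (Fintype.card S : ℝ) := by
    exact_mod_cast Fintype.card_pos
  have hnE : (1 : ℝ) ≤ (Fintype.card E : ℝ) := by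
    exact_mod_cast Fintype.card_pos
  obtain ⟨C₁, A', C₀, h1, h2, h3, hb⟩ := ngc K Λ n Ca A₁ ε hCa hA hε
  have hC : (0 : ℝ) < (Fintype.card S : ℝ) ^ (g₀ + A.g) *
      ((Fintype.card E : ℝ) ^ (g₀ + A.g) * C₀) := by
    have a1 : (0 : ℝ) < (Fintype.card S : ℝ) := by linarith
    have a2 : (0 : ℝ) < (Fintype.card E : ℝ) := by linarith
    positivity
  refine ⟨C₁, A', _, h1, h2, hC, fun Y hY k Mw X W Zc hg hok ψ hψ1 hψ2 hψ3 a F R Cn ha hF hex hsa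
    hsR hcn hbx => ?_⟩
  obtain ⟨T, hT⟩ : ∃ T, T = Real.exp (Real.log Y ^ ε) := ⟨_, rfl⟩
  rw [← hT] at hok hex hsa hsR hcn hbx ⊢
  have hlogY : (0 : ℝ) ≤ Real.log Y ^ (-A₁) :=
    Real.rpow_nonneg (Real.log_nonneg (by linarith)) _
  have hY0 : (0 : ℝ) < Y := by linarith
  have key : ∀ (τ : V0 B X → S) (e : H73.S3.J0 X → E),
      ‖∑ f ∈ Cf Zc Λ, wR X W T Zc M ψ Y (fun v => (f v).map g) * a τ e f * F τ e f‖ ≤
        C₀ * Y * Real.log Y ^ (-A₁) := by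
    intro τ e
    have h5 := hb Y hY Zc (PPc X W T) (fun v hv => by rw [← hT]; exact hv.1) ψ hψ1 hψ2 hψ3
      (a τ e) (F τ e) (fun f => Rich X W T Zc M (fun v => (f v).map g)) (R τ e) (Cn τ e)
      (ha τ e) (hF τ e) (hex τ e) (by
        intro l b hbm v hv v' hv' ho
        obtain ⟨s, hs, hs'⟩ := sy_ex X W T Zc hok.zc hok.ez hok.okW.zs hok.okW.nd hok.okW.lz
          hok.ze hok.et hok.srt l b hbm v v' hv hv' ho
        have hm1 := H1.BD.up_mem Zc (PPc X W T) b v l hbm hv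
        have hm2 := H1.BD.up_mem Zc (PPc X W T) b v' l hbm hv'
        refine ⟨hsa τ e _ hm1 _ hm2 s hs, ?_, ?_, ?_⟩
        · have h6 := hsR τ e _ hm1 _ hm2 s hs v (tp_fr Zc (PPc X W T) b v l hv)
          have h7 : (fun k => s (v k)) = v' := funext hs'
          rw [h7] at h6
          exact h6
        · exact hs.nl (R τ e) fun v hv => hsR τ e _ hm1 _ hm2 s hs v hv
        · exact (hs.map g).rich M)
      (hcn τ e) (fun l lo hi hlh => by
        rw [← hT] at hlh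
        exact hbx τ e l lo hi hlh)
    refine le_trans (le_of_eq ?_) h5
    congr 1
    refine Finset.sum_congr rfl fun f _ => ?_
    congr 2
    unfold wR
    rw [sp_map]
  have hcV : (V0 B X).card ≤ g₀ + A.g := by
    unfold V0
    refine (Finset.card_union_le _ _).trans (Nat.add_le_add hg ?_)
    refine Finset.card_image_le.trans ?_
    rw [Finset.card_univ, Fintype.card_fin]
  have hcJ : (H73.S3.J0 X).card ≤ g₀ + A.g := by
    unfold H73.S3.J0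
    rw [Finset.card_disjSum, Finset.card_univ, Fintype.card_fin]
    exact Nat.add_le_add_right hg _
  have hR : (0 : ℝ) ≤ C₀ * Y * Real.log Y ^ (-A₁) := by positivity
  have hE : ∀ τ : V0 B X → S, ‖∑ e : H73.S3.J0 X → E, ∑ f ∈ Cf Zc Λ,
      wR X W T Zc M ψ Y (fun v => (f v).map g) * a τ e f * F τ e f‖ ≤
      (Fintype.card E : ℝ) ^ (g₀ + A.g) * (C₀ * Y * Real.log Y ^ (-A₁)) := by
    intro τ
    refine (norm_sum_le _ _).trans ?_
    refine (Finset.sum_le_card_nsmul _ _ _ fun e _ => key τ e).trans ?_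
    rw [nsmul_eq_mul, Finset.card_univ, Fintype.card_fun, Fintype.card_coe]
    push_cast
    exact mul_le_mul_of_nonneg_right (pow_le_pow_right₀ hnE hcJ) hR
  refine (norm_sum_le _ _).trans ?_
  refine (Finset.sum_le_card_nsmul _ _ _ fun τ _ => hE τ).trans ?_
  rw [nsmul_eq_mul, Finset.card_univ, Fintype.card_fun, Fintype.card_coe]
  push_cast
  refine (mul_le_mul_of_nonneg_right (pow_le_pow_right₀ hnS hcV)
    (mul_nonneg (by positivity) hR)).trans (le_of_eq ?_)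
  ring

end H35.OW
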