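import Pool.Agent.H35.OW.Ngg

/-!
# [OW I] the generic second half of the negligible sum (MP_b39724_nt, theorem OW; think 1838 (8))

`ngS`: sum over `i` in a finite index set (bounded number), labels `l` of the new places, `b`, `v ∈ Fr b` of `wR · AM · F` at `up b v l`, `v`: small if `AM` is bounded and preserved by symmetries,
`F` bounded by `1`, and the box inequality holds for the part of `F` with `Cn` (a consequence of `AM ≠ 0`). Proof: `bdo`, `sy_ex`.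
-/

set_option autoImplicit false

open scoped NumberField commutatorElement
open IsDedekindDomain
open scoped Classical

noncomputable section

namespace H35.OW

open H63.MA H38.BB H38.BG H57.PC H57.BRA H77.WD H77.WE H77.PC3 H35.CF H35.UB H77.S3 H71.S3 H1.S3
open H73.S3

attribute [local instance 50] Fintype.ofFinite

variable {K : Type} [Field K] [NumberField K] {Ω : Type} [Field Ω] [Algebra K Ω]
  {p N : ℕ} {ζ : K} {D : RD0 K p ζ} {Q : DP K Ω} {A : GS D Ω} {P : Type} [Group P]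
  {c : CL p N P} {S : Type} [Group S] [MulDistribMulAction P S]

theorem ngS [Fintype S] [Fintype P] (G : SG c S) (B : SD D Q A) (q : ℕ) (Λ : Type) [Fintype Λ]
    (g : Λ → Px c) (n M c₀ : ℕ) (Ca CI A₁ ε : ℝ) (hCa : 0 < Ca) (hCI : 0 < CI) (hA : 0 ≤ A₁)
    (hε : 0 < ε) :
    ∃ C₁ A' C : ℝ, 3 ≤ C₁ ∧ 0 ≤ A' ∧ 0 < C ∧ ∀ Y : ℝ, 3 ≤ Y →
      ∀ (k Mw : ℕ) (X : FD A P S) (W : WF A) (Zc : Finset (Pl K)),
        NgOk G B X W k Mw q c₀ (Real.exp (Real.log Y ^ ε)) Zc →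
      ∀ ψ : ℝ → ℝ, (∀ t, |ψ t| ≤ 1) → (∀ t, 2 ≤ t → ψ t = 0) → (∀ s t, |ψ s - ψ t| ≤ |s - t|) →
      ∀ (ι : Type) [Fintype ι], (Fintype.card ι : ℝ) ≤ CI →
      ∀ (a F : ι → (Pl K → Option Λ) → (Fin n → Pl K) → ℂ)
        (Cn : ι → (Pl K → Option Λ) → (Fin n → Pl K) → (Fin n → Λ) → Prop),
      (∀ i, ∀ f ∈ Cf Zc Λ, ∀ v ∈ Tp Zc (PPc X W (Real.exp (Real.log Y ^ ε))) f n,
        ‖a i f v‖ ≤ Ca) →
      (∀ i, ∀ f ∈ Cf Zc Λ, ∀ v ∈ Tp Zc (PPc X W (Real.exp (Real.log Y ^ ε))) f n,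
        ‖F i f v‖ ≤ 1) →
      (∀ i, ∀ f₁ ∈ Cf Zc Λ, ∀ f₂ ∈ Cf Zc Λ, ∀ s : Equiv.Perm (Pl K),
        SyG X W (Real.exp (Real.log Y ^ ε)) Zc f₁ f₂ s →
        Rich X W (Real.exp (Real.log Y ^ ε)) Zc M (fun w => (f₁ w).map g) →
        ∀ v ∈ Tp Zc (PPc X W (Real.exp (Real.log Y ^ ε))) f₁ n,
          a i f₁ v = a i f₂ fun k => s (v k)) →
      (∀ i, ∀ (l : Fin n → Λ), ∀ b ∈ Cf Zc Λ,
        ∀ v ∈ H35.CF.Fr Zc (PPc X W (Real.exp (Real.log Y ^ ε))) b n,
          Rich X W (Real.exp (Real.log Y ^ ε)) Zc M (fun w => (up b v l w).map g) →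
          a i (up b v l) v ≠ 0 → Cn i b v l) →
      (∀ i, ∀ (l : Fin n → Λ) (lo hi : Fin n → ℝ),
        (∀ k, Real.exp (Real.log Y ^ ε) ≤ lo k ∧ lo k ≤ hi k ∧ hi k ≤ 2 * lo k ∧
          hi k ≤ Y ^ C₁) →
        ∑ b ∈ (Cf Zc Λ).filter (fun b => nr (sp Zc b) ≤ Y ^ C₁ ∧
            ((sp Zc b).card : ℝ) ≤ C₁ * (1 + Real.log (Real.log Y))),
          (nr (sp Zc b))⁻¹ * (∏ k, lo k)⁻¹ *
            ‖∑ v ∈ (H35.CF.Fr Zc (PPc X W (Real.exp (Real.log Y ^ ε))) b n).filter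
              (fun v => ∀ k, lo k < nm (v k) ∧ (nm (v k) : ℝ) ≤ hi k),
              (if Cn i b v l then F i (up b v l) v else 0)‖ ≤
          Real.log Y ^ (-A')) →
      ‖∑ i : ι, ∑ l : Fin n → Λ, ∑ b ∈ Cf Zc Λ,
        ∑ v ∈ H35.CF.Fr Zc (PPc X W (Real.exp (Real.log Y ^ ε))) b n,
        wR X W (Real.exp (Real.log Y ^ ε)) Zc M ψ Y (fun w => (up b v l w).map g) *
          a i (up b v l) v * F i (up b v l) v‖ ≤ C * Y * Real.log Y ^ (-A₁) := by
  obtain ⟨C₁, A', C₀, h1, h2, h3, hb⟩ := bdo K Λ n 1 A₁ ε zero_le_one hA hε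
  have hC : (0 : ℝ) < CI * (((Fintype.card Λ : ℝ) ^ n + 1) * (Ca * C₀)) := by positivity
  refine ⟨C₁, A', _, h1, h2, hC, fun Y hY k Mw X W Zc hok ψ hψ1 hψ2 hψ3 ι _ hcI a F Cn ha hF hsa
    hcn hbx => ?_⟩
  obtain ⟨T, hT⟩ : ∃ T, T = Real.exp (Real.log Y ^ ε) := ⟨_, rfl⟩
  rw [← hT] at hok ha hF hsa hcn hbx ⊢
  have hlogY : (0 : ℝ) ≤ Real.log Y ^ (-A₁) :=
    Real.rpow_nonneg (Real.log_nonneg (by linarith)) _
  have hY0 : (0 : ℝ) < Y := by linarith
  have hC0 : (Ca : ℂ) ≠ 0 := by exact_mod_cast hCa.ne'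
  have hl : ∀ (i : ι) (l : Fin n → Λ), ‖∑ b ∈ Cf Zc Λ,
      ∑ v ∈ H35.CF.Fr Zc (PPc X W T) b n,
        wR X W T Zc M ψ Y (fun w => (up b v l w).map g) * a i (up b v l) v *
          F i (up b v l) v‖ ≤ Ca * (C₀ * Y * Real.log Y ^ (-A₁)) := by
    intro i l
    obtain ⟨gg, hgd⟩ : ∃ gg : (Pl K → Option Λ) → (Fin n → Pl K) → ℂ,
        gg = fun b v => if Rich X W T Zc M (fun w => (up b v l w).map g) then
          a i (up b v l) v / (Ca : ℂ) else 0 := ⟨_, rfl⟩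
    obtain ⟨Fl, hFd⟩ : ∃ Fl : (Pl K → Option Λ) → (Fin n → Pl K) → ℂ,
        Fl = fun b v => if Cn i b v l then F i (up b v l) v else 0 := ⟨_, rfl⟩
    have hsum : (∑ b ∈ Cf Zc Λ, ∑ v ∈ H35.CF.Fr Zc (PPc X W T) b n,
        wR X W T Zc M ψ Y (fun w => (up b v l w).map g) * a i (up b v l) v *
          F i (up b v l) v) =
        (Ca : ℂ) * ∑ b ∈ Cf Zc Λ, ∑ v ∈ H35.CF.Fr Zc (PPc X W T) b n, gg b v *
          ((ψ (nr (sp Zc b) * (∏ k, (nm (v k) : ℝ)) / Y) : ℝ) : ℂ) * Fl b v := by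
      rw [Finset.mul_sum]
      refine Finset.sum_congr rfl fun b hbm => ?_
      rw [Finset.mul_sum]
      refine Finset.sum_congr rfl fun v hv => ?_
      rw [hgd, hFd]
      beta_reduce
      by_cases c2 : Rich X W T Zc M (fun w => (up b v l w).map g)
      · have e0 : wR X W T Zc M ψ Y (fun w => (up b v l w).map g) =
            ((ψ (nr (sp Zc b) * (∏ k, (nm (v k) : ℝ)) / Y) : ℝ) : ℂ) := by
          unfold wR
          rw [if_pos c2, sp_map]
          have e1 : nr (sp Zc (up b v l)) = nr (sp Zc b) * ∏ k, (nm (v k) : ℝ) :=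
            H1.BD.sp_up_prod Zc (PPc X W T) b v l hv fun v => (nm v : ℝ)
          rw [e1]
        rw [e0, if_pos c2]
        by_cases c3 : a i (up b v l) v = 0
        · rw [c3]
          simp
        · rw [if_pos (hcn i l b hbm v hv c2 c3)]
          field_simp
      · have e0 : wR X W T Zc M ψ Y (fun w => (up b v l w).map g) = 0 := if_neg c2
        rw [e0, if_neg c2]
        simp
    rw [hsum, norm_mul, Complex.norm_real, Real.norm_of_nonneg hCa.le]
    refine mul_le_mul_of_nonneg_left ?_ hCa.le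
    refine hb Y hY Zc (PPc X W T) (fun v hv => by rw [← hT]; exact hv.1) ψ hψ1 hψ2 hψ3 gg Fl
      ?_ ?_ ?_ ?_
    · intro b hbm v hv
      rw [hgd]
      beta_reduce
      split_ifs with c1
      · rw [norm_div, Complex.norm_real, Real.norm_of_nonneg hCa.le]
        refine div_le_one_of_le₀ ?_ hCa.le
        exact ha i _ (H1.BD.up_mem Zc (PPc X W T) b v l hbm hv) v
          (tp_fr Zc (PPc X W T) b v l hv)
      · rw [norm_zero]
        exact zero_le_one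
    · intro b hbm v hv v' hv' ho
      obtain ⟨s, hs, hs'⟩ := sy_ex X W T Zc hok.zc hok.ez hok.okW.zs hok.okW.nd hok.okW.lz
        hok.ze hok.et hok.srt l b hbm v v' hv hv' ho
      have hm1 := H1.BD.up_mem Zc (PPc X W T) b v l hbm hv
      have hm2 := H1.BD.up_mem Zc (PPc X W T) b v' l hbm hv'
      have hr := (hs.map g).rich M
      rw [hgd]
      beta_reduce
      by_cases c2 : Rich X W T Zc M (fun w => (up b v l w).map g)
      · rw [if_pos c2, if_pos (hr.1 c2)]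
        have h6 := hsa i _ hm1 _ hm2 s hs c2 v (tp_fr Zc (PPc X W T) b v l hv)
        have h7 : (fun k => s (v k)) = v' := funext hs'
        rw [h7] at h6
        rw [h6]
      · rw [if_neg c2, if_neg (mt hr.2 c2)]
    · intro b hbm v hv
      rw [hFd, one_pow]
      beta_reduce
      split_ifs with c1
      · exact hF i _ (H1.BD.up_mem Zc (PPc X W T) b v l hbm hv) v
          (tp_fr Zc (PPc X W T) b v l hv)
      · rw [norm_zero]
        exact zero_le_one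
    · intro lo hi hlh
      rw [← hT] at hlh
      have h5 := hbx i l lo hi hlh
      rw [hFd]
      exact h5
  have hR : (0 : ℝ) ≤ Ca * (C₀ * Y * Real.log Y ^ (-A₁)) := by positivity
  have hi : ∀ i : ι, ‖∑ l : Fin n → Λ, ∑ b ∈ Cf Zc Λ,
      ∑ v ∈ H35.CF.Fr Zc (PPc X W T) b n,
        wR X W T Zc M ψ Y (fun w => (up b v l w).map g) * a i (up b v l) v *
          F i (up b v l) v‖ ≤
      ((Fintype.card Λ : ℝ) ^ n + 1) * (Ca * (C₀ * Y * Real.log Y ^ (-A₁))) := by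
    intro i
    refine (norm_sum_le _ _).trans ?_
    refine (Finset.sum_le_card_nsmul _ _ _ fun l _ => hl i l).trans ?_
    rw [nsmul_eq_mul, Finset.card_univ, Fintype.card_fun, Fintype.card_fin]
    push_cast
    exact mul_le_mul_of_nonneg_right (by linarith) hR
  refine (norm_sum_le _ _).trans ?_
  refine (Finset.sum_le_card_nsmul _ _ _ fun i _ => hi i).trans ?_
  rw [nsmul_eq_mul, Finset.card_univ]
  refine (mul_le_mul_of_nonneg_right hcI (mul_nonneg (by positivity) hR)).trans (le_of_eq ?_)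
  ring

end H35.OW
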