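import Pool.Agent.H73.S3.Ord
import Pool.Agent.H35.OW.Lab

/-!
# [OW S3] symmetry of configurations, transport of the data (MP_b39724_nt; generic and public form of H73/S3/Ord)

* `TrG X₁ X₂ σ τ₁ τ₂`: transport of the data along a permutation `σ` of the letters. `ejG`, `euG`: the bijections of the living letters and of the changes. Transport of `mv`, `Cg`, `H`, `pr`, `Hh`.
* `SyG X W T Zc f₁ f₂ s`: the permutation `s` of the places takes the configuration `f₁` (labels in any type) to `f₂`, in the same order. `sy_ex`: `Oe` gives a symmetry of `up b v l`, `up b v' l`.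
* `SyG.tr`, `SyG.y`, `SyG.t`, `SyG.vf`, `SyG.nl`, `SyG.rich`: what a symmetry preserves.
-/

set_option autoImplicit false

open scoped NumberField commutatorElement
open IsDedekindDomain
open scoped Classical

noncomputable section

namespace H35.OW

open H63.MA H38.BB H38.BG H57.PC H57.BRA H77.WD H77.WE H77.PC3 H35.CF H35.UB H77.S3 H71.S3 H1.S3
open H73.S3

attribute [local instance 50] Fintype.ofFinite

private theorem syg_perm {α : Type} {n : ℕ} (v v' : Fin n → α) (hv : Function.Injective v)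
    (hv' : Function.Injective v') : ∃ s : Equiv.Perm α, (∀ k, s (v k) = v' k) ∧
      (∀ w, (∀ k, v k ≠ w) → (∀ k, v' k ≠ w) → s w = w) ∧
      ∀ w, ((∃ k, v k = w) ∨ ∃ k, v' k = w) → ((∃ k, v k = s w) ∨ ∃ k, v' k = s w) := by
  obtain ⟨p, hp⟩ : ∃ p : α → Prop, ∀ w, p w ↔ ((∃ k, v k = w) ∨ ∃ k, v' k = w) :=
    ⟨_, fun w => Iff.rfl⟩
  let x : Fin n ↪ {w // p w} :=
    ⟨fun k => ⟨v k, (hp _).2 (Or.inl ⟨k, rfl⟩)⟩, fun i j hij => hv (congrArg Subtype.val hij)⟩
  let y : Fin n ↪ {w // p w} :=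
    ⟨fun k => ⟨v' k, (hp _).2 (Or.inr ⟨k, rfl⟩)⟩, fun i j hij => hv' (congrArg Subtype.val hij)⟩
  obtain ⟨g, hg⟩ := MulAction.isMultiplyPretransitive_iff.1
    (Equiv.Perm.isMultiplyPretransitive {w // p w} n) x y
  refine ⟨Equiv.Perm.ofSubtype g, fun k => ?_, fun w h1 h2 => ?_, fun w h => ?_⟩
  · show Equiv.Perm.ofSubtype g ((x k : {w // p w}) : α) = v' k
    rw [Equiv.Perm.ofSubtype_apply_of_mem g (x k).2]
    have h1 := DFunLike.congr_fun hg k
    exact congrArg Subtype.val h1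
  · refine Equiv.Perm.ofSubtype_apply_of_not_mem g fun h3 => ?_
    rcases (hp w).1 h3 with ⟨k, hk⟩ | ⟨k, hk⟩
    · exact h1 k hk
    · exact h2 k hk
  · rw [← hp] at h ⊢
    rw [Equiv.Perm.ofSubtype_apply_of_mem g h]
    exact (g ⟨w, h⟩).2

private theorem syg_filt {α M : Type} [Monoid M] (p : α → Prop) [DecidablePred p] (g : α → M)
    (l : List α)
    (h : ∀ v ∈ l, ¬p v → g v = 1) :
    (l.map g).prod = ((l.filter fun v => decide (p v)).map g).prod := by
  induction l with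
  | nil => rfl
  | cons a l ih =>
    have h1 := ih fun v hv => h v (List.mem_cons_of_mem _ hv)
    rw [List.map_cons, List.prod_cons, List.filter_cons]
    by_cases ha : p a
    · rw [if_pos (decide_eq_true ha), List.map_cons, List.prod_cons, h1]
    · rw [if_neg (by rw [decide_eq_true_eq]; exact ha), h a List.mem_cons_self ha, one_mul, h1]

private theorem syg_list {α : Type} (l : List α) (hl : l.Nodup) (p₁ p₂ : α → Prop)
    [DecidablePred p₁] [DecidablePred p₂] (s : Equiv.Perm α) (hp : ∀ w, p₂ (s w) ↔ p₁ w) (hm : ∀ w, p₁ w → (s w ∈ l ↔ w ∈ l))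
    (R : α → α → Prop) (hR : l.Pairwise R)
    (hc : ∀ a ∈ l, ∀ b ∈ l, p₁ a → p₁ b → a ≠ b → R a b → (s a = a ∧ s b = b) ∨ ¬R (s b) (s a)) :
    (l.filter fun v => decide (p₂ v)) = (l.filter fun v => decide (p₁ v)).map s := by
  have hr : ∀ a ∈ l, ∀ b ∈ l, l.idxOf a < l.idxOf b → R a b := by
    intro a ha b hb hab
    have h1 := List.pairwise_iff_getElem.1 hR _ _ (List.idxOf_lt_length_of_mem ha)
      (List.idxOf_lt_length_of_mem hb) hab
    rwa [List.getElem_idxOf, List.getElem_idxOf] at h1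
  have hi : l.Pairwise fun a b => l.idxOf a < l.idxOf b := by
    rw [List.pairwise_iff_getElem]
    intro i j hi hj hij
    rw [hl.idxOf_getElem, hl.idxOf_getElem]
    exact hij
  have hirr : Std.Irrefl fun a b : α => l.idxOf a < l.idxOf b := ⟨fun a => lt_irrefl _⟩
  have hant : Std.Antisymm fun a b : α => l.idxOf a < l.idxOf b :=
    ⟨fun a b h1 h2 => absurd h2 (lt_asymm h1)⟩
  refine List.Pairwise.eq_of_mem_iff (r := fun a b : α => l.idxOf a < l.idxOf b) (hi.filter _) ?_ ?_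
  · rw [List.pairwise_map]
    refine (hi.filter (fun v => decide (p₁ v))).imp_of_mem ?_
    intro a b ha hb hab
    rw [List.mem_filter, decide_eq_true_eq] at ha hb
    have hne : a ≠ b := fun h => by rw [h] at hab; exact lt_irrefl _ hab
    have hsa := (hm a ha.2).2 ha.1
    have hsb := (hm b hb.2).2 hb.1
    rcases hc a ha.1 b hb.1 ha.2 hb.2 hne (hr a ha.1 b hb.1 hab) with h | h
    · rw [h.1, h.2]
      exact hab
    · by_contra h2
      rcases lt_or_eq_of_le (not_lt.1 h2) with h3 | h3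
      · exact h (hr _ hsb _ hsa h3)
      · have h4 : l.idxOf (s b) = l.idxOf (s a) := h3
        have h5 : s b = s a := (List.idxOf_inj hsb).1 h4
        exact hne (s.injective h5).symm
  · intro a
    rw [List.mem_map]
    constructor
    · intro h
      rw [List.mem_filter, decide_eq_true_eq] at h
      have h1 : p₁ (s.symm a) := by
        rw [← hp, Equiv.apply_symm_apply]
        exact h.2
      refine ⟨s.symm a, ?_, s.apply_symm_apply a⟩
      rw [List.mem_filter, decide_eq_true_eq]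
      refine ⟨?_, h1⟩
      rw [← hm _ h1, Equiv.apply_symm_apply]
      exact h.1
    · rintro ⟨b, hb, rfl⟩
      rw [List.mem_filter, decide_eq_true_eq] at hb ⊢
      exact ⟨(hm b hb.2).2 hb.1, (hp b).2 hb.2⟩

section tr

variable {S P : Type} [Group S] [Group P] [MulDistribMulAction P S] {J V : Type}

/-- transport of the data -/
structure TrG (X₁ X₂ : AD S P J V) (σ : Equiv.Perm J) (τ₁ τ₂ : V → S) : Prop where
  jf : ∀ j, j ∈ X₁.Jf ↔ σ j ∈ X₂.Jf
  pp : ∀ j ∈ X₁.Jf, (X₂.pp (σ j) ↔ X₁.pp j)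
  G : ∀ x₁ x₂ : J → SP S P, (∀ j ∈ X₁.Jf, x₂ (σ j) = x₁ j) → (X₂.G x₂ ↔ X₁.G x₁)
  RR : ∀ x₁ x₂ : J → SP S P, (∀ j ∈ X₁.Jf, x₂ (σ j) = x₁ j) → X₂.RR τ₂ x₂ = X₁.RR τ₁ x₁

variable {X₁ X₂ : AD S P J V} {σ : Equiv.Perm J} {τ₁ τ₂ : V → S}

/-- the bijection of the letters which are not killed -/
def ejG (ht : TrG X₁ X₂ σ τ₁ τ₂) : X₁.Jf ≃ X₂.Jf := σ.subtypeEquiv ht.jf

theorem ejG_coe (ht : TrG X₁ X₂ σ τ₁ τ₂) (j : X₁.Jf) : ((ejG ht j : X₂.Jf) : J) = σ j := rfl

/-- the bijection of the changes -/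
def euG (ht : TrG X₁ X₂ σ τ₁ τ₂) : (X₁.Jf → S) ≃ (X₂.Jf → S) :=
  Equiv.arrowCongr (ejG ht) (Equiv.refl S)

theorem euG_ap (ht : TrG X₁ X₂ σ τ₁ τ₂) (u : X₁.Jf → S) (j : X₁.Jf) :
    euG ht u (ejG ht j) = u j := by
  show u ((ejG ht).symm (ejG ht j)) = u j
  rw [Equiv.symm_apply_apply]

/-- changes defined by a condition at each letter -/
theorem TrG.all (ht : TrG X₁ X₂ σ τ₁ τ₂) (R₁ : X₁.Jf → S → Prop) (R₂ : X₂.Jf → S → Prop)
    (hR : ∀ j a, R₂ (ejG ht j) a ↔ R₁ j a) (u : X₁.Jf → S) :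
    (∀ j, R₁ j (u j)) ↔ ∀ j, R₂ j (euG ht u j) := by
  constructor
  · intro hu j₂
    obtain ⟨j, rfl⟩ := (ejG ht).surjective j₂
    rw [euG_ap, hR]
    exact hu j
  · intro hu j
    have h1 := hu (ejG ht j)
    rwa [euG_ap, hR] at h1

theorem TrG.mem_cg [Fintype S] (ht : TrG X₁ X₂ σ τ₁ τ₂) (m : ℕ) (u : X₁.Jf → S) :
    u ∈ X₁.Cg m ↔ euG ht u ∈ X₂.Cg m := by
  unfold AD.Cg
  simp only [Finset.mem_filter, Finset.mem_univ, true_and]
  refine ht.all (fun j a => a ∈ gm S (if X₁.pp j then m else m + 1))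
    (fun j a => a ∈ gm S (if X₂.pp j then m else m + 1)) (fun j a => ?_) u
  have e : (if X₂.pp (ejG ht j : X₂.Jf) then m else m + 1) = if X₁.pp j then m else m + 1 :=
    if_congr (ht.pp j j.2) rfl rfl
  show a ∈ gm S (if X₂.pp (ejG ht j : X₂.Jf) then m else m + 1) ↔ _
  rw [e]

theorem TrG.mv (ht : TrG X₁ X₂ σ τ₁ τ₂) (u : X₁.Jf → S) {x₁ x₂ : J → SP S P}
    (hx : ∀ j ∈ X₁.Jf, x₂ (σ j) = x₁ j) :
    ∀ j ∈ X₁.Jf, X₂.mv (euG ht u) x₂ (σ j) = X₁.mv u x₁ j := by
  intro j hj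
  unfold AD.mv
  rw [dif_pos ((ht.jf j).1 hj), dif_pos hj, hx j hj]
  have h1 : euG ht u ⟨σ j, (ht.jf j).1 hj⟩ = u ⟨j, hj⟩ := euG_ap ht u ⟨j, hj⟩
  rw [h1]

/-- sums over changes -/
theorem TrG.sum {M : Type} [AddCommMonoid M] (ht : TrG X₁ X₂ σ τ₁ τ₂)
    (s₁ : Finset (X₁.Jf → S)) (s₂ : Finset (X₂.Jf → S)) (hs : ∀ u, u ∈ s₁ ↔ euG ht u ∈ s₂)
    (F₁ : (X₁.Jf → S) → M) (F₂ : (X₂.Jf → S) → M) (hF : ∀ u ∈ s₁, F₁ u = F₂ (euG ht u)) :
    ∑ u ∈ s₁, F₁ u = ∑ u ∈ s₂, F₂ u :=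
  Finset.sum_equiv (euG ht) hs hF

theorem TrG.card (ht : TrG X₁ X₂ σ τ₁ τ₂)
    (s₁ : Finset (X₁.Jf → S)) (s₂ : Finset (X₂.Jf → S)) (hs : ∀ u, u ∈ s₁ ↔ euG ht u ∈ s₂) :
    s₁.card = s₂.card :=
  Finset.card_equiv (euG ht) hs

theorem TrG.h [Fintype S] (ht : TrG X₁ X₂ σ τ₁ τ₂) (m : ℕ) {x₁ x₂ : J → SP S P}
    (hx : ∀ j ∈ X₁.Jf, x₂ (σ j) = x₁ j) : X₂.H m τ₂ x₂ = X₁.H m τ₁ x₁ := by
  have h1 : ((X₁.Cg m).filter fun u => X₁.G (X₁.mv u x₁) ∧ X₁.RR τ₁ (X₁.mv u x₁) = 1).card =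
      ((X₂.Cg m).filter fun u => X₂.G (X₂.mv u x₂) ∧ X₂.RR τ₂ (X₂.mv u x₂) = 1).card := by
    refine Finset.card_equiv (euG ht) fun u => ?_
    rw [Finset.mem_filter, Finset.mem_filter, ← ht.mem_cg, ht.G _ _ (ht.mv u hx),
      ht.RR _ _ (ht.mv u hx)]
  have h2 : (X₁.Cg m).card = (X₂.Cg m).card :=
    Finset.card_equiv (euG ht) fun u => ht.mem_cg m u
  unfold AD.H
  rw [h1, h2]

theorem TrG.pr {q m : ℕ} (ht : TrG X₁ X₂ σ τ₁ τ₂) (u : X₁.Jf → S)
    {η₁ : X₁.Jf → Du S q m × Du S q (m + 1)} {η₂ : X₂.Jf → Du S q m × Du S q (m + 1)}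
    (hη : ∀ j, η₂ (ejG ht j) = η₁ j) : X₂.pr η₂ (euG ht u) = X₁.pr η₁ u := by
  unfold AD.pr
  symm
  refine Fintype.sum_equiv (ejG ht) _ _ fun j => ?_
  rw [euG_ap, hη]
  exact if_congr (ht.pp j j.2).symm rfl rfl

theorem TrG.hh [Fintype S] {q m : ℕ} (ht : TrG X₁ X₂ σ τ₁ τ₂) {x₁ x₂ : J → SP S P}
    (hx : ∀ j ∈ X₁.Jf, x₂ (σ j) = x₁ j)
    {η₁ : X₁.Jf → Du S q m × Du S q (m + 1)} {η₂ : X₂.Jf → Du S q m × Du S q (m + 1)}
    (hη : ∀ j, η₂ (ejG ht j) = η₁ j) : X₂.Hh m τ₂ x₂ η₂ = X₁.Hh m τ₁ x₁ η₁ := by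
  have h1 : ∑ u ∈ X₁.Cg m, X₁.H (m + 1) τ₁ (X₁.mv u x₁) * H63.MA.ep q (-X₁.pr η₁ u) =
      ∑ u ∈ X₂.Cg m, X₂.H (m + 1) τ₂ (X₂.mv u x₂) * H63.MA.ep q (-X₂.pr η₂ u) := by
    refine Finset.sum_equiv (euG ht) (fun u => ht.mem_cg m u) fun u _ => ?_
    rw [ht.h (m + 1) (ht.mv u hx), ht.pr u hη]
  have h2 : (X₁.Cg m).card = (X₂.Cg m).card :=
    Finset.card_equiv (euG ht) fun u => ht.mem_cg m u
  unfold AD.Hh
  rw [h1, h2]

end tr

variable {K : Type} [Field K] [NumberField K] {Ω : Type} [Field Ω] [Algebra K Ω]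
  {p N : ℕ} {ζ : K} {D : RD0 K p ζ} {Q : DP K Ω} {A : GS D Ω} {P : Type} [Group P]
  {c : CL p N P} {S : Type} [Group S] [MulDistribMulAction P S]

/-- symmetry of two configurations -/
structure SyG (X : FD A P S) (W : WF A) (T : ℝ) (Zc : Finset (Pl K)) {Λ : Type}
    (f₁ f₂ : Pl K → Option Λ) (s : Equiv.Perm (Pl K)) : Prop where
  f : ∀ w, f₂ (s w) = f₁ w
  z : ∀ w, (s w ∈ Zc ↔ w ∈ Zc)
  e : ∀ w ∈ X.E, s w = w
  s0 : ∀ w ∈ D.S0, s w = w
  n : ∀ w ∈ sp Zc f₁, ¬PPc X W T w → s w = w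
  p : ∀ w ∈ sp Zc f₁, (PPc X W T (s w) ↔ PPc X W T w)
  l : (W.l.filter fun w => decide (w ∈ sp Zc f₂ ∨ w ∈ X.E ∨ w ∈ D.S0)) =
    (W.l.filter fun w => decide (w ∈ sp Zc f₁ ∨ w ∈ X.E ∨ w ∈ D.S0)).map s
  ze : Disjoint Zc X.E

section any

variable {X : FD A P S} {W : WF A} {T : ℝ} {Zc : Finset (Pl K)} {Λ Λ' : Type}
  {f₁ f₂ : Pl K → Option Λ} {s : Equiv.Perm (Pl K)}

theorem SyG.sp (h : SyG X W T Zc f₁ f₂ s) (w : Pl K) :
    s w ∈ H35.CF.sp Zc f₂ ↔ w ∈ H35.CF.sp Zc f₁ := by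
  rw [mem_sp, mem_sp, h.z, h.f]

theorem SyG.ei (h : SyG X W T Zc f₁ f₂ s) (w : Pl K) : s w ∈ X.E ↔ w ∈ X.E := by
  constructor
  · intro h1
    have h2 := s.injective (h.e _ h1)
    rwa [h2] at h1
  · intro h1
    rw [h.e w h1]
    exact h1

theorem SyG.si (h : SyG X W T Zc f₁ f₂ s) (w : Pl K) : s w ∈ D.S0 ↔ w ∈ D.S0 := by
  constructor
  · intro h1
    have h2 := s.injective (h.s0 _ h1)
    rwa [h2] at h1
  · intro h1
    rw [h.s0 w h1]
    exact h1

theorem sp_map (Zc : Finset (Pl K)) (g : Λ → Λ') (f : Pl K → Option Λ) :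
    H35.CF.sp Zc (fun v => (f v).map g) = H35.CF.sp Zc f := by
  ext v
  rw [mem_sp, mem_sp]
  rw [ne_eq, Option.map_eq_none_iff]

/-- a symmetry is a symmetry of the images of the labels -/
theorem SyG.map (h : SyG X W T Zc f₁ f₂ s) (g : Λ → Λ') :
    SyG X W T Zc (fun v => (f₁ v).map g) (fun v => (f₂ v).map g) s where
  f w := by rw [h.f]
  z := h.z
  e := h.e
  s0 := h.s0
  n w hw := by
    rw [sp_map] at hw
    exact h.n w hw
  p w hw := by
    rw [sp_map] at hw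
    exact h.p w hw
  l := by
    simp only [sp_map]
    exact h.l
  ze := h.ze

/-- the number of the tuples -/
theorem SyG.nl (h : SyG X W T Zc f₁ f₂ s) {n : ℕ}
    (R : (Pl K → Option Λ) → (Fin n → Pl K) → Prop)
    (hR : ∀ v ∈ Tp Zc (PPc X W T) f₁ n, (R f₁ v ↔ R f₂ fun k => s (v k))) :
    Nl Zc (PPc X W T) n R f₁ = Nl Zc (PPc X W T) n R f₂ := by
  unfold Nl
  refine Finset.card_equiv (Equiv.arrowCongr (Equiv.refl _) s) fun v => ?_
  have h0 : (Equiv.arrowCongr (Equiv.refl (Fin n)) s) v = fun k => s (v k) := rfl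
  have h1 : (fun k => s (v k)) ∈ Tp Zc (PPc X W T) f₂ n ↔
      v ∈ Tp Zc (PPc X W T) f₁ n := by
    unfold Tp
    simp only [Finset.mem_filter, Fintype.mem_piFinset]
    refine and_congr ?_ ?_
    · refine forall_congr' fun k => ?_
      rw [h.sp]
      exact and_congr_right fun h2 => h.p _ h2
    · constructor
      · intro h2 i j hij
        exact h2 (congrArg s hij)
      · intro h2 i j hij
        exact h2 (s.injective hij)
  rw [Finset.mem_filter, Finset.mem_filter, h0, h1]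
  exact and_congr_right fun h2 => hR v h2

/-- the number of the places with a property of the label -/
theorem SyG.cnt (h : SyG X W T Zc f₁ f₂ s) (g : Λ → Prop) :
    (Zc.filter fun v => (∃ a, f₁ v = some a ∧ g a) ∧ PPc X W T v).card =
      (Zc.filter fun v => (∃ a, f₂ v = some a ∧ g a) ∧ PPc X W T v).card := by
  refine Finset.card_equiv s fun v => ?_
  rw [Finset.mem_filter, Finset.mem_filter, h.z, h.f]
  refine and_congr_right fun h2 => and_congr_right fun h3 => ?_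
  obtain ⟨a, ha, -⟩ := h3
  exact (h.p v (mem_sp.2 ⟨h2, fun h4 => by rw [h4] at ha; exact absurd ha (by simp)⟩)).symm

end any

theorem SyG.rich {X : FD A P S} {W : WF A} {T : ℝ} {Zc : Finset (Pl K)}
    {f₁ f₂ : Pl K → Option (Px c)} {s : Equiv.Perm (Pl K)} (h : SyG X W T Zc f₁ f₂ s) (M : ℕ) :
    Rich X W T Zc M f₁ ↔ Rich X W T Zc M f₂ := by
  unfold Rich
  refine forall_congr' fun a => ?_
  have h1 : (Zc.filter fun v => f₁ v = some a ∧ PPc X W T v).card =
      (Zc.filter fun v => f₂ v = some a ∧ PPc X W T v).card := by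
    refine Finset.card_equiv s fun v => ?_
    rw [Finset.mem_filter, Finset.mem_filter, h.z, h.f]
    refine and_congr_right fun h2 => and_congr_right fun h3 => ?_
    refine (h.p v (mem_sp.2 ⟨h2, fun h4 => ?_⟩)).symm
    rw [h4] at h3
    exact absurd h3 (Option.some_ne_none a).symm
  rw [h1]

section px

variable {X : FD A P S} {W : WF A} {T : ℝ} {Zc : Finset (Pl K)}
  {f₁ f₂ : Pl K → Option (Px c)} {s : Equiv.Perm (Pl K)}

variable (A) in
/-- the permutation of the letters -/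
def sgG (s : Equiv.Perm (Pl K)) : Equiv.Perm (Pl K ⊕ Fin A.g) :=
  Equiv.sumCongr s (Equiv.refl _)

theorem sgG_inl (s : Equiv.Perm (Pl K)) (w : Pl K) :
    sgG A s (Sum.inl w) = Sum.inl (s w) := rfl

theorem sgG_inr (s : Equiv.Perm (Pl K)) (i : Fin A.g) :
    sgG A s (Sum.inr i) = Sum.inr i := rfl

theorem SyG.t (h : SyG X W T Zc f₁ f₂ s) (G : SG c S) (B : SD D Q A)
    (j : Pl K ⊕ Fin A.g) : (adf G B X W T Zc f₂).t (sgG A s j) =
      (adf G B X W T Zc f₁).t j := by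
  rcases j with w | i
  · show (if s w ∈ X.E then (⟨X.sv (s w), X.φ (W.L.t (s w))⟩ : SP S P) else
      (if s w ∈ Zc then f₂ (s w) else none).elim 1 fun a => il (G.y a)) =
      (if w ∈ X.E then (⟨X.sv w, X.φ (W.L.t w)⟩ : SP S P) else
      (if w ∈ Zc then f₁ w else none).elim 1 fun a => il (G.y a))
    by_cases hw : w ∈ X.E
    · rw [h.e w hw, if_pos hw, if_pos hw]
    · rw [if_neg (mt (h.ei w).1 hw), if_neg hw]
      by_cases hz : w ∈ Zc
      · rw [if_pos ((h.z w).2 hz), if_pos hz, h.f]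
      · rw [if_neg (mt (h.z w).1 hz), if_neg hz]
  · rfl

theorem SyG.y (h : SyG X W T Zc f₁ f₂ s) (G : SG c S) (B : SD D Q A)
    (j : Pl K ⊕ Fin A.g) : (adf G B X W T Zc f₂).y (sgG A s j) =
      (adf G B X W T Zc f₁).y j := by
  unfold AD.y
  rw [h.t G B j]

theorem phG_eq (G : SG c S) (B : SD D Q A) (X : FD A P S) (W : WF A) (T : ℝ)
    (Zc : Finset (Pl K)) (f f' : Pl K → Option (Px c)) :
    (adf G B X W T Zc f).ph = (adf G B X W T Zc f').ph := by
  unfold AD.ph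
  congr 1
  funext j
  have ho : ∀ o : Option (Px c), ((o.elim 1 fun a => il (G.y a)) : SP S P).right = 1 := by
    intro o
    cases o <;> rfl
  rcases j with w | i
  · show ((if w ∈ X.E then (⟨X.sv w, X.φ (W.L.t w)⟩ : SP S P) else
      (if w ∈ Zc then f w else none).elim 1 fun a => il (G.y a))).right =
      ((if w ∈ X.E then (⟨X.sv w, X.φ (W.L.t w)⟩ : SP S P) else
      (if w ∈ Zc then f' w else none).elim 1 fun a => il (G.y a))).right
    by_cases hw : w ∈ X.E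
    · rw [if_pos hw, if_pos hw]
    · rw [if_neg hw, if_neg hw, ho, ho]
  · rfl

theorem memG_jf (G : SG c S) (B : SD D Q A) (X : FD A P S) (W : WF A) (T : ℝ)
    (Zc : Finset (Pl K)) (f : Pl K → Option (Px c)) (w : Pl K) :
    (Sum.inl w : Pl K ⊕ Fin A.g) ∈ (adf G B X W T Zc f).Jf ↔
      w ∈ H35.CF.sp Zc f ∨ w ∈ X.E := by
  show (Sum.inl w : Pl K ⊕ Fin A.g) ∈ (H35.CF.sp Zc f ∪ X.E).disjSum Finset.univ ↔ _
  rw [Finset.inl_mem_disjSum, Finset.mem_union]

theorem memG_jr (G : SG c S) (B : SD D Q A) (X : FD A P S) (W : WF A) (T : ℝ)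
    (Zc : Finset (Pl K)) (f : Pl K → Option (Px c)) (i : Fin A.g) :
    (Sum.inr i : Pl K ⊕ Fin A.g) ∈ (adf G B X W T Zc f).Jf := by
  show (Sum.inr i : Pl K ⊕ Fin A.g) ∈ (H35.CF.sp Zc f ∪ X.E).disjSum Finset.univ
  rw [Finset.inr_mem_disjSum]
  exact Finset.mem_univ _

theorem ppG_inl (G : SG c S) (B : SD D Q A) (X : FD A P S) (W : WF A) (T : ℝ)
    (Zc : Finset (Pl K)) (f : Pl K → Option (Px c)) (w : Pl K) :
    (adf G B X W T Zc f).pp (Sum.inl w) ↔ w ∈ H35.CF.sp Zc f ∧ PPc X W T w := Iff.rfl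

theorem SyG.pp (h : SyG X W T Zc f₁ f₂ s) (G : SG c S) (B : SD D Q A)
    (j : Pl K ⊕ Fin A.g) : (adf G B X W T Zc f₂).pp (sgG A s j) ↔
      (adf G B X W T Zc f₁).pp j := by
  rcases j with w | i
  · rw [sgG_inl, ppG_inl, ppG_inl, h.sp]
    constructor
    · rintro ⟨h1, h2⟩
      exact ⟨h1, (h.p w h1).1 h2⟩
    · rintro ⟨h1, h2⟩
      exact ⟨h1, (h.p w h1).2 h2⟩
  · exact Iff.rfl

theorem SyG.jf (h : SyG X W T Zc f₁ f₂ s) (G : SG c S) (B : SD D Q A)
    (j : Pl K ⊕ Fin A.g) : j ∈ (adf G B X W T Zc f₁).Jf ↔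
      sgG A s j ∈ (adf G B X W T Zc f₂).Jf := by
  rcases j with w | i
  · rw [sgG_inl, memG_jf, memG_jf, h.sp, h.ei]
  · exact ⟨fun _ => memG_jr G B X W T Zc _ i, fun _ => memG_jr G B X W T Zc _ i⟩

/-- the letters which are alive and not `pp` are the same -/
theorem SyG.np (h : SyG X W T Zc f₁ f₂ s) (G : SG c S) (B : SD D Q A)
    (j : Pl K ⊕ Fin A.g) : (j ∈ (adf G B X W T Zc f₁).Jf ∧
        ¬(adf G B X W T Zc f₁).pp j) ↔
      (j ∈ (adf G B X W T Zc f₂).Jf ∧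
        ¬(adf G B X W T Zc f₂).pp j) := by
  rcases j with w | i
  · rw [memG_jf, memG_jf, ppG_inl, ppG_inl]
    constructor
    · rintro ⟨h1 | h1, h2⟩
      · have h3 : ¬PPc X W T w := fun h4 => h2 ⟨h1, h4⟩
        have h5 := (h.sp w).2 h1
        rw [h.n w h1 h3] at h5
        exact ⟨Or.inl h5, fun h6 => h3 h6.2⟩
      · exact ⟨Or.inr h1, fun h6 => Finset.disjoint_left.1 h.ze (mem_sp.1 h6.1).1 h1⟩
    · rintro ⟨h1 | h1, h2⟩
      · have h3 : ¬PPc X W T w := fun h4 => h2 ⟨h1, h4⟩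
        obtain ⟨w', rfl⟩ := s.surjective w
        have h5 := (h.sp w').1 h1
        have h6 : ¬PPc X W T w' := fun h7 => h3 ((h.p w' h5).2 h7)
        have h8 := h.n w' h5 h6
        rw [h8]
        exact ⟨Or.inl h5, fun h9 => h6 h9.2⟩
      · exact ⟨Or.inr h1, fun h6 => Finset.disjoint_left.1 h.ze (mem_sp.1 h6.1).1 h1⟩
  · exact ⟨fun _ => ⟨memG_jr G B X W T Zc _ i, not_false⟩,
      fun _ => ⟨memG_jr G B X W T Zc _ i, not_false⟩⟩

/-- the symmetry fixes the letters which are alive and not `pp` -/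
theorem SyG.nf (h : SyG X W T Zc f₁ f₂ s) (G : SG c S) (B : SD D Q A)
    (j : Pl K ⊕ Fin A.g) (hj : j ∈ (adf G B X W T Zc f₁).Jf)
    (hp : ¬(adf G B X W T Zc f₁).pp j) : sgG A s j = j := by
  rcases j with w | i
  · rw [memG_jf] at hj
    rw [ppG_inl] at hp
    rw [sgG_inl]
    rcases hj with h2 | h2
    · rw [h.n w h2 fun h4 => hp ⟨h2, h4⟩]
    · rw [h.e w h2]
  · rfl

theorem bkG_dead (G : SG c S) (B : SD D Q A) (X : FD A P S) (W : WF A) (T : ℝ)
    (Zc : Finset (Pl K)) (f : Pl K → Option (Px c)) (x : Pl K ⊕ Fin A.g → SP S P)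
    (v : Pl K) (hv : ¬(v ∈ H35.CF.sp Zc f ∨ v ∈ X.E ∨ v ∈ D.S0)) :
    (adf G B X W T Zc f).bk x v = 1 := by
  push Not at hv
  obtain ⟨h1, h2, h3⟩ := hv
  have ht : (adf G B X W T Zc f).t (Sum.inl v) = 1 := by
    show (if v ∈ X.E then (⟨X.sv v, X.φ (W.L.t v)⟩ : SP S P) else
      (if v ∈ Zc then f v else none).elim 1 fun a => il (G.y a)) = 1
    rw [if_neg h2]
    by_cases hz : v ∈ Zc
    · rw [if_pos hz]
      have h4 : f v = none := by
        by_contra h5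
        exact h1 (mem_sp.2 ⟨hz, h5⟩)
      rw [h4]
      rfl
    · rw [if_neg hz]
      rfl
  have hb : (adf G B X W T Zc f).bl v = [Sum.inl v] := if_neg h3
  unfold AD.bk H1.S3.wd
  rw [hb, List.map_cons, List.map_nil, List.prod_cons, List.prod_nil, mul_one, ht,
    commutatorElement_one_left]

theorem SyG.bk (h : SyG X W T Zc f₁ f₂ s) (G : SG c S) (B : SD D Q A)
    (x₁ x₂ : Pl K ⊕ Fin A.g → SP S P)
    (hx : ∀ j ∈ (adf G B X W T Zc f₁).Jf, x₂ (sgG A s j) = x₁ j) (w : Pl K)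
    (hw : w ∈ H35.CF.sp Zc f₁ ∨ w ∈ X.E ∨ w ∈ D.S0) :
    (adf G B X W T Zc f₂).bk x₂ (s w) = (adf G B X W T Zc f₁).bk x₁ w := by
  unfold AD.bk H1.S3.wd
  by_cases h0 : w ∈ D.S0
  · rw [h.s0 w h0]
    have hb : ∀ f : Pl K → Option (Px c), (adf G B X W T Zc f).bl w =
        ((List.finRange A.g).filter fun i => B.pl i = w).map Sum.inr := fun f => if_pos h0
    rw [hb, hb, List.map_map, List.map_map]
    congr 1
    refine List.map_congr_left fun i _ => ?_
    have h1 := hx (Sum.inr i) (memG_jr G B X W T Zc _ i)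
    rw [sgG_inr] at h1
    show ⁅(adf G B X W T Zc f₂).t (Sum.inr i), x₂ (Sum.inr i)⁆ =
      ⁅(adf G B X W T Zc f₁).t (Sum.inr i), x₁ (Sum.inr i)⁆
    rw [h1]
    rfl
  · have hb : ∀ f : Pl K → Option (Px c), ∀ v, v ∉ D.S0 →
        (adf G B X W T Zc f).bl v = [Sum.inl v] := fun f v hv => if_neg hv
    rw [hb _ _ (mt (h.si w).1 h0), hb _ _ h0]
    have hj : (Sum.inl w : Pl K ⊕ Fin A.g) ∈ (adf G B X W T Zc f₁).Jf := by
      rw [memG_jf]
      rcases hw with hw | hw | hw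
      · exact Or.inl hw
      · exact Or.inr hw
      · exact absurd hw h0
    have h1 := hx _ hj
    have h2 := h.t G B (Sum.inl w)
    rw [sgG_inl] at h1 h2
    rw [List.map_cons, List.map_nil, List.map_cons, List.map_nil, h1, h2]

/-- transport of the data for conjugators which correspond at the living places -/
theorem SyG.tr (h : SyG X W T Zc f₁ f₂ s) (G : SG c S) (B : SD D Q A) (τ₁ τ₂ : Pl K → S)
    (hτ : ∀ w, (w ∈ H35.CF.sp Zc f₁ ∨ w ∈ X.E ∨ w ∈ D.S0) → τ₂ (s w) = τ₁ w) :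
    TrG (adf G B X W T Zc f₁) (adf G B X W T Zc f₂) (sgG A s) τ₁ τ₂ where
  jf := h.jf G B
  pp j _ := h.pp G B j
  G := by
    intro x₁ x₂ hx
    show ((∀ v ∈ H35.CF.sp Zc f₂, ∀ a, f₂ v = some a →
        Commute a.1 (G.Pi (x₂ (Sum.inl v)))) ∧
      (∀ v ∈ X.E, G.Pi (x₂ (Sum.inl v)) = X.l.F v) ∧ ∀ i, G.Pi (x₂ (Sum.inr i)) = X.l.b i) ↔
      ((∀ v ∈ H35.CF.sp Zc f₁, ∀ a, f₁ v = some a →
        Commute a.1 (G.Pi (x₁ (Sum.inl v)))) ∧
      (∀ v ∈ X.E, G.Pi (x₁ (Sum.inl v)) = X.l.F v) ∧ ∀ i, G.Pi (x₁ (Sum.inr i)) = X.l.b i)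
    have hi : ∀ v, (v ∈ H35.CF.sp Zc f₁ ∨ v ∈ X.E) → x₂ (Sum.inl (s v)) = x₁ (Sum.inl v) := by
      intro v hv
      have h1 := hx (Sum.inl v) ((memG_jf G B X W T Zc f₁ v).2 hv)
      rwa [sgG_inl] at h1
    have hr : ∀ i : Fin A.g, x₂ (Sum.inr i) = x₁ (Sum.inr i) := by
      intro i
      have h1 := hx (Sum.inr i) (memG_jr G B X W T Zc _ i)
      rwa [sgG_inr] at h1
    refine and_congr ?_ (and_congr ?_ ?_)
    · constructor
      · intro h1 v hv a ha
        have h2 := h1 (s v) ((h.sp v).2 hv) a ((h.f v).trans ha)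
        rwa [hi v (Or.inl hv)] at h2
      · intro h1 v hv a ha
        obtain ⟨w, rfl⟩ := s.surjective v
        have hw := (h.sp w).1 hv
        rw [hi w (Or.inl hw)]
        exact h1 w hw a ((h.f w).symm.trans ha)
    · refine forall₂_congr fun v hv => ?_
      have h1 := hi v (Or.inr hv)
      rw [h.e v hv] at h1
      rw [h1]
    · refine forall_congr' fun i => ?_
      rw [hr]
  RR := by
    intro x₁ x₂ hx
    have key : ∀ (f : Pl K → Option (Px c)) (τ : Pl K → S)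
        (x : Pl K ⊕ Fin A.g → SP S P), (adf G B X W T Zc f).RR τ x =
        ((W.l.filter fun w => decide (w ∈ H35.CF.sp Zc f ∨ w ∈ X.E ∨ w ∈ D.S0)).map
          fun v => cj (τ v) ((adf G B X W T Zc f).bk x v)).prod := by
      intro f τ x
      refine syg_filt (fun w => w ∈ H35.CF.sp Zc f ∨ w ∈ X.E ∨ w ∈ D.S0)
        (fun v => cj (τ v) ((adf G B X W T Zc f).bk x v)) W.l fun v _ hv => ?_
      show cj (τ v) ((adf G B X W T Zc f).bk x v) = 1
      rw [bkG_dead G B X W T Zc f x v hv]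
      unfold cj
      group
    rw [key, key, h.l, List.map_map]
    congr 1
    refine List.map_congr_left fun w hw => ?_
    rw [List.mem_filter, decide_eq_true_eq] at hw
    show cj (τ₂ (s w)) ((adf G B X W T Zc f₂).bk x₂ (s w)) = _
    rw [hτ w hw.2, h.bk G B x₁ x₂ hx w hw.2]

theorem SyG.vf (h : SyG X W T Zc f₁ f₂ s) (G : SG c S) (B : SD D Q A) :
    (adf G B X W T Zc f₁).Vf.card = (adf G B X W T Zc f₂).Vf.card := by
  have h1 : (adf G B X W T Zc f₂).Vf =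
      (adf G B X W T Zc f₁).Vf.image s := by
    unfold AD.Vf
    rw [Finset.image_image]
    have hpj : ∀ j : Pl K ⊕ Fin A.g, (adf G B X W T Zc f₂).pj (sgG A s j) =
        s ((adf G B X W T Zc f₁).pj j) := by
      intro j
      rcases j with w | i
      · rfl
      · show B.pl i = s (B.pl i)
        rw [h.s0 _ (B.mem i)]
    ext v
    simp only [Finset.mem_image, Function.comp_apply]
    constructor
    · rintro ⟨j, hj, rfl⟩
      obtain ⟨j', rfl⟩ := (sgG A s).surjective j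
      exact ⟨j', (h.jf G B j').2 hj, (hpj j').symm⟩
    · rintro ⟨j, hj, rfl⟩
      exact ⟨sgG A s j, (h.jf G B j).1 hj, hpj j⟩
  rw [h1, Finset.card_image_of_injective _ s.injective]

end px

section lb

variable {X : FD A P S} {W : WF A} {T : ℝ} {Zc : Finset (Pl K)} {E U : Type}
  {f₁ f₂ : Pl K → Option (LbG c S E U)} {s : Equiv.Perm (Pl K)}

theorem SyG.lf (h : SyG X W T Zc f₁ f₂ s) : SyG X W T Zc (lfG f₁) (lfG f₂) s :=
  h.map fun a => a.1

theorem SyG.tf (h : SyG X W T Zc f₁ f₂ s) (τ₀ : Pl K → S) (w : Pl K)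
    (hw : w ∈ H35.CF.sp Zc f₁ ∨ w ∈ X.E ∨ w ∈ D.S0) : tfG τ₀ f₂ (s w) = tfG τ₀ f₁ w := by
  unfold tfG
  rw [h.f]
  rcases hw with hw | hw | hw
  · obtain ⟨a, ha⟩ := Option.ne_none_iff_exists'.1 (mem_sp.1 hw).2
    rw [ha]
    rfl
  · rw [h.e w hw]
  · rw [h.s0 w hw]

theorem SyG.ef (h : SyG X W T Zc f₁ f₂ s) (G : SG c S) (B : SD D Q A)
    (e₀ : Pl K ⊕ Fin A.g → E) (j : Pl K ⊕ Fin A.g)
    (hj : j ∈ (adf G B X W T Zc (lfG f₁)).Jf) :
    efG e₀ f₂ (sgG A s j) = efG e₀ f₁ j := by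
  rcases j with w | i
  · rw [memG_jf, sp_lfG] at hj
    show (f₂ (s w)).elim (e₀ (Sum.inl (s w))) (fun a => a.2.2.1) =
      (f₁ w).elim (e₀ (Sum.inl w)) fun a => a.2.2.1
    rw [h.f]
    rcases hj with hw | hw
    · obtain ⟨a, ha⟩ := Option.ne_none_iff_exists'.1 (mem_sp.1 hw).2
      rw [ha]
      rfl
    · rw [h.e w hw]
  · rfl

theorem SyG.kf [Zero U] (h : SyG X W T Zc f₁ f₂ s) (w : Pl K) : kfG f₂ (s w) = kfG f₁ w := by
  unfold kfG
  rw [h.f]

/-- transport of the data of enriched configurations -/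
theorem SyG.trl (h : SyG X W T Zc f₁ f₂ s) (G : SG c S) (B : SD D Q A) (τ₀ : Pl K → S) :
    TrG (adf G B X W T Zc (lfG f₁)) (adf G B X W T Zc (lfG f₂)) (sgG A s)
      (tfG τ₀ f₁) (tfG τ₀ f₂) :=
  h.lf.tr G B _ _ fun w hw => h.tf τ₀ w (by
    rw [sp_lfG] at hw
    exact hw)

end lb

/-- `Oe` gives a symmetry -/
theorem sy_ex {Λ : Type} [Fintype Λ] {n : ℕ}
    (X : FD A P S) (W : WF A) (T : ℝ) (Zc : Finset (Pl K)) (hZc : Zc ⊆ W.Z) (hE : X.E ⊆ W.Z)
    (hZs : ∀ v ∈ W.Z, v ∉ D.S0) (hnd : W.l.Nodup) (hlz : ∀ v, v ∈ W.l ↔ v ∈ W.Z ∨ v ∈ D.S0)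
    (hZE : Disjoint Zc X.E) (hET : ∀ v ∈ X.E, (nm v : ℝ) ≤ T) (hsrt : W.Srt)
    (l : Fin n → Λ)
    (b : Pl K → Option Λ) (hb : b ∈ Cf Zc Λ) (v v' : Fin n → Pl K)
    (hv : v ∈ H35.CF.Fr Zc (PPc X W T) b n) (hv' : v' ∈ H35.CF.Fr Zc (PPc X W T) b n)
    (ho : Oe Zc b v v') :
    ∃ s : Equiv.Perm (Pl K), SyG X W T Zc (up b v l) (up b v' l) s ∧ ∀ k, s (v k) = v' k := by
  have hfr : ∀ v ∈ H35.CF.Fr Zc (PPc X W T) b n, (∀ k, v k ∈ Zc ∧ PPc X W T (v k) ∧
      b (v k) = none) ∧ Function.Injective v := by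
    intro v hv
    unfold H35.CF.Fr at hv
    rw [Finset.mem_filter, Fintype.mem_piFinset] at hv
    exact ⟨fun k => Finset.mem_filter.1 (hv.1 k), hv.2⟩
  obtain ⟨a1, a2⟩ := hfr v hv
  obtain ⟨b1, b2⟩ := hfr v' hv'
  obtain ⟨s, s1, s2, s3⟩ := syg_perm v v' a2 b2
  have hb0 := mem_cf.1 hb
  -- the places in `T`
  have hT : ∀ w, ((∃ k, v k = w) ∨ ∃ k, v' k = w) → w ∈ Zc ∧ PPc X W T w ∧ b w = none := by
    rintro w (⟨k, rfl⟩ | ⟨k, rfl⟩)
    · exact a1 k
    · exact b1 k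
  have hF : ∀ w, ¬(w ∈ Zc ∧ PPc X W T w ∧ b w = none) → s w = w := by
    intro w hw
    refine s2 w (fun k hk => hw (hT w (Or.inl ⟨k, hk⟩))) fun k hk => hw (hT w (Or.inr ⟨k, hk⟩))
  have hup : ∀ w, up b v' l (s w) = up b v l w := by
    intro w
    by_cases h1 : ∃ k, v k = w
    · obtain ⟨k, rfl⟩ := h1
      rw [s1, up_of b v' l b2 k, up_of b v l a2 k]
    · push Not at h1
      have h2 : ∀ k, v' k ≠ s w := fun k hk => h1 k (s.injective ((s1 k).trans hk))
      rw [up_ne b v' l _ h2, up_ne b v l _ h1]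
      by_cases h3 : ∃ k, v' k = w
      · have h4 := hT w (Or.inr h3)
        have h5 := hT (s w) (s3 w (Or.inr h3))
        rw [h4.2.2, h5.2.2]
      · push Not at h3
        rw [s2 w h1 h3]
  have hsz : ∀ w, (s w ∈ Zc ↔ w ∈ Zc) := by
    intro w
    by_cases h1 : (∃ k, v k = w) ∨ ∃ k, v' k = w
    · exact iff_of_true (hT _ (s3 w h1)).1 (hT w h1).1
    · push Not at h1
      rw [s2 w h1.1 h1.2]
  have hsp : ∀ w, w ∈ H35.CF.sp Zc (up b v l) → (∃ k, v k = w) ∨ w ∈ H35.CF.sp Zc b := by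
    intro w hw
    by_cases h1 : ∃ k, v k = w
    · exact Or.inl h1
    · push Not at h1
      rw [mem_sp, up_ne b v l _ h1] at hw
      exact Or.inr (mem_sp.2 hw)
  have hspb : ∀ w ∈ H35.CF.sp Zc b, s w = w := fun w hw =>
    hF w fun h1 => (mem_sp.1 hw).2 h1.2.2
  have hEf : ∀ w ∈ X.E, s w = w := fun w hw =>
    hF w fun h1 => Finset.disjoint_left.1 hZE h1.1 hw
  have hSf : ∀ w ∈ D.S0, s w = w := fun w hw => hF w fun h1 => hZs w (hZc h1.1) hw
  have hpp : ∀ k, T < (nm (v k) : ℝ) ∧ T < (nm (v' k) : ℝ) := fun k =>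
    ⟨(a1 k).2.1.1, (b1 k).2.1.1⟩
  have hsy : SyG X W T Zc (up b v l) (up b v' l) s :=
    { f := hup
      z := hsz
      e := hEf
      s0 := hSf
      n := by
        intro w hw h1
        rcases hsp w hw with ⟨k, rfl⟩ | h2
        · exact absurd (a1 k).2.1 h1
        · exact hspb w h2
      p := by
        intro w hw
        rcases hsp w hw with ⟨k, rfl⟩ | h2
        · rw [s1]
          exact iff_of_true (b1 k).2.1 (a1 k).2.1
        · rw [hspb w h2]
      l := by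
        refine syg_list W.l hnd (fun w => w ∈ H35.CF.sp Zc (up b v l) ∨ w ∈ X.E ∨ w ∈ D.S0)
          (fun w => w ∈ H35.CF.sp Zc (up b v' l) ∨ w ∈ X.E ∨ w ∈ D.S0) s ?_ ?_ _ hsrt ?_
        · intro w
          refine or_congr ?_ (or_congr ?_ ?_)
          · rw [mem_sp, mem_sp, hsz, hup]
          · constructor
            · intro h1
              have h2 := s.injective (hEf _ h1)
              rwa [h2] at h1
            · intro h1
              rw [hEf w h1]
              exact h1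
          · constructor
            · intro h1
              have h2 := s.injective (hSf _ h1)
              rwa [h2] at h1
            · intro h1
              rw [hSf w h1]
              exact h1
        · rintro w (h1 | h1 | h1)
          · have h2 := (mem_sp.1 h1).1
            exact iff_of_true ((hlz _).2 (Or.inl (hZc ((hsz w).2 h2)))) ((hlz _).2 (Or.inl (hZc h2)))
          · rw [hEf w h1]
          · rw [hSf w h1]
        · intro x hx y hy px py hne hxy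
          -- the cases
          have cs : ∀ w, (w ∈ H35.CF.sp Zc (up b v l) ∨ w ∈ X.E ∨ w ∈ D.S0) →
              (∃ k, v k = w) ∨ (w ∈ H35.CF.sp Zc b ∨ w ∈ X.E) ∨ w ∈ D.S0 := by
            rintro w (h1 | h1 | h1)
            · rcases hsp w h1 with h2 | h2
              · exact Or.inl h2
              · exact Or.inr (Or.inl (Or.inl h2))
            · exact Or.inr (Or.inl (Or.inr h1))
            · exact Or.inr (Or.inr h1)
          have fixw : ∀ w, (w ∈ H35.CF.sp Zc b ∨ w ∈ X.E) → s w = w := by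
            rintro w (h1 | h1)
            · exact hspb w h1
            · exact hEf w h1
          have inZ : ∀ w, (w ∈ H35.CF.sp Zc b ∨ w ∈ X.E) → w ∈ W.Z := by
            rintro w (h1 | h1)
            · exact hZc (mem_sp.1 h1).1
            · exact hE h1
          rcases cs y py with ⟨j, rfl⟩ | h1 | h1
          · -- `y = v j`
            obtain ⟨h2, h3⟩ := hxy (hZc (a1 j).1)
            rcases cs x px with ⟨i, rfl⟩ | h4 | h4
            · right
              intro h5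
              rw [s1, s1] at h5
              have h6 := (h5 (hZc (b1 i).1)).2
              have hij : i ≠ j := fun h => hne (by rw [h])
              rcases ho.2 i j hij with h7 | h7
              · omega
              · omega
            · right
              intro h5
              rw [s1, fixw x h4] at h5
              have h6 := (h5 h2).2
              rcases h4 with h4 | h4
              · rcases ho.1 j x h4 with h7 | h7
                · omega
                · omega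
              · have h7 := hET x h4
                have h8 := (hpp j).2
                have h9 : (nm (v' j) : ℝ) ≤ nm x := by exact_mod_cast h6
                linarith
            · exact absurd h4 (hZs x h2)
          · -- `y` is fixed and in `Z`
            obtain ⟨h2, h3⟩ := hxy (inZ y h1)
            rcases cs x px with ⟨i, rfl⟩ | h4 | h4
            · right
              intro h5
              rw [s1, fixw y h1] at h5
              have h6 := (h5 (hZc (b1 i).1)).2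
              rcases h1 with h1 | h1
              · rcases ho.1 i y h1 with h7 | h7
                · omega
                · omega
              · have h7 := hET y h1
                have h8 := (hpp i).1
                have h9 : (nm (v i) : ℝ) ≤ nm y := by exact_mod_cast h3
                linarith
            · exact Or.inl ⟨fixw x h4, fixw y h1⟩
            · exact absurd h4 (hZs x h2)
          · -- `y ∈ S0`
            rcases cs x px with ⟨i, rfl⟩ | h4 | h4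
            · right
              intro h5
              rw [s1, hSf y h1] at h5
              exact hZs y (h5 (hZc (b1 i).1)).1 h1
            · exact Or.inl ⟨fixw x h4, hSf y h1⟩
            · exact Or.inl ⟨hSf x h4, hSf y h1⟩
      ze := hZE }
  exact ⟨s, hsy, s1⟩

end H35.OW
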