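import Pool.Agent.H93.OW.Obt
import Pool.Agent.H48.OW.Cls
import Pool.Agent.H35.OW.Sy2

/-!
# [OW S4] symmetries of the tuples of the same order (MP_b39724_nt, theorem OW)

* `ob_oc`: `Ob` (H48/OW/Cls) gives equal order types (H93/OW/Obt). `ob_sy`: so there is a symmetry `s` of `up b v l`, `up b v' l` with `s (v k) = v' k` and `s = 1` at the places of `b`, `E`, `S0`.
* `SyG.cn2`: the conditions `Cn2` are preserved. `rp_sy`, `cn2_sy`: `Rp` and `Cn2` at `v` and at `v'`.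
-/

set_option autoImplicit false

open scoped NumberField commutatorElement
open IsDedekindDomain
open scoped Classical

noncomputable section

namespace H35.OW

open H63.MA H38.BB H38.BG H57.PC H57.BRA H77.WD H77.WE H77.PC3 H35.CF H35.UB H77.S3 H71.S3 H1.S3
open H73.S3 H73.OW H48.OW H93.OW

attribute [local instance 50] Fintype.ofFinite

variable {K : Type} [Field K] [NumberField K] {Ω : Type} [Field Ω] [Algebra K Ω]
  {p N : ℕ} {ζ : K} {D : RD0 K p ζ} {Q : DP K Ω} {A : GS D Ω} {P : Type} [Group P]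
  {c : CL p N P} {S : Type} [Group S] {n : ℕ} {Λ : Type}

theorem ob_oc (W : WF A) (Zc E : Finset (Pl K)) (b : Pl K → Option Λ) (v v' : Fin n → Pl K)
    (h : Ob W Zc E b v v') : oc W.l (Fx D E Zc b) v = oc W.l (Fx D E Zc b) v' :=
  Prod.ext (funext fun w => funext fun k => propext (h.1 w (mem_fx.1 w.2) k))
    (funext fun i => funext fun j => propext (h.2 i j))

/-- the symmetry of two tuples of the same order -/
theorem ob_sy (X : FD A P S) (W : WF A) (T : ℝ) (Zc : Finset (Pl K)) (hZc : Zc ⊆ W.Z)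
    (hZs : ∀ v ∈ W.Z, v ∉ D.S0) (hnd : W.l.Nodup) (hlz : ∀ v, v ∈ W.l ↔ v ∈ W.Z ∨ v ∈ D.S0)
    (hZE : Disjoint Zc X.E) (l : Fin n → Λ) (b : Pl K → Option Λ) (v v' : Fin n → Pl K)
    (hv : v ∈ H35.CF.Fr Zc (PPc X W T) b n) (hv' : v' ∈ H35.CF.Fr Zc (PPc X W T) b n)
    (ho : Ob W Zc X.E b v v') :
    ∃ s : Equiv.Perm (Pl K), SyG X W T Zc (up b v l) (up b v' l) s ∧ (∀ k, s (v k) = v' k) ∧
      (∀ w ∈ H35.CF.sp Zc b, s w = w) ∧ ∀ w ∉ Zc, s w = w := by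
  have hfr : ∀ v ∈ H35.CF.Fr Zc (PPc X W T) b n, (∀ k, v k ∈ Zc ∧ b (v k) = none) ∧
      Function.Injective v := by
    intro v hv
    unfold H35.CF.Fr at hv
    rw [Finset.mem_filter, Fintype.mem_piFinset] at hv
    exact ⟨fun k => ⟨(Finset.mem_filter.1 (hv.1 k)).1, (Finset.mem_filter.1 (hv.1 k)).2.2⟩, hv.2⟩
  obtain ⟨a1, a2⟩ := hfr v hv
  obtain ⟨b1, b2⟩ := hfr v' hv'
  obtain ⟨s, hs⟩ := sps_ex v v' a2 b2
  refine ⟨s, sy_bit X W T Zc hZc hZs hnd hlz hZE l b v v' hv hv' (ob_oc W Zc X.E b v v' ho) hs,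
    hs.k, fun w hw => hs.o w ?_ ?_, fun w hw => hs.o w ?_ ?_⟩
  · rintro k rfl
    exact (mem_sp.1 hw).2 (a1 k).2
  · rintro k rfl
    exact (mem_sp.1 hw).2 (b1 k).2
  · rintro k rfl
    exact hw (a1 k).1
  · rintro k rfl
    exact hw (b1 k).1

section cn

variable [MulDistribMulAction P S] {q d : ℕ} {X : FD A P S} {W : WF A} {T : ℝ}
  {Zc : Finset (Pl K)} {f₁ f₂ : Pl K → Option (Elb2 c S q d)} {s : Equiv.Perm (Pl K)}

/-- the conditions are preserved -/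
theorem SyG.cn2 (h : SyG X W T Zc f₁ f₂ s) (G : SG c S) (B : SD D Q A)
    (hx : ∀ f : Pl K → Option (Px c), (adf G B X W T Zc f).Jf → Du S q (d + 1) × Du S q (d + 1 + 1))
    (hh : Hxn G B X W T Zc hx) (M : ℕ) (e₀ : Pl K ⊕ Fin A.g → El2 S P q d) :
    Cn2 G B X W T Zc hx M e₀ f₁ ↔ Cn2 G B X W T Zc hx M e₀ f₂ := by
  have ht : TrG (adx2 G B X W T Zc f₁) (adx2 G B X W T Zc f₂) (sgG A s) (tf2 (fun _ => 1) f₁)
      (tf2 (fun _ => 1) f₂) := h.trl G B fun _ => 1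
  have hef : ∀ j ∈ (adx2 G B X W T Zc f₁).Jf, ef2 e₀ f₂ (sgG A s j) = ef2 e₀ f₁ j :=
    fun j hj => h.ef G B e₀ j hj
  have hζ : ∀ j, (adx2 G B X W T Zc f₂).et2 (ef2 e₀ f₂) (ejG ht j) =
      (adx2 G B X W T Zc f₁).et2 (ef2 e₀ f₁) j := by
    intro j
    show (ef2 e₀ f₂ (sgG A s j)).1 = (ef2 e₀ f₁ j).1
    rw [hef j j.2]
  have c2 : (adx2 G B X W T Zc f₂).rz ((adx2 G B X W T Zc f₂).et2 (ef2 e₀ f₂)) = hx (lf2 f₂) ↔
      (adx2 G B X W T Zc f₁).rz ((adx2 G B X W T Zc f₁).et2 (ef2 e₀ f₁)) = hx (lf2 f₁) := by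
    have hn : ∀ j : (adx2 G B X W T Zc f₁).Jf, hx (lf2 f₂) (ejG ht j) = hx (lf2 f₁) j :=
      fun j => hh (lf2 f₁) (lf2 f₂) s h.lf j
    constructor
    · intro h1
      funext j
      rw [← ht.rz hζ j, h1, hn j]
    · intro h1
      funext j
      obtain ⟨j, rfl⟩ := (ejG ht).surjective j
      rw [ht.rz hζ j, h1, hn j]
  exact and_congr (ht.ff2 hζ).symm (and_congr c2.symm (h.lf.rich M))

/-- the pattern at two tuples of places -/
theorem rp_sy {X : FD A P S} {W : WF A} {T : ℝ} {Zc : Finset (Pl K)} {b : Pl K → Option (Elb2 c S q d)}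
    {l : Fin n → Elb2 c S q d} {v v' : Fin n → Pl K}
    (h : SyG X W T Zc (up b v l) (up b v' l) s) (s1 : ∀ k, s (v k) = v' k)
    (hv : v ∈ H35.CF.Fr Zc (PPc X W T) b n) (G : SG c S) (B : SD D Q A)
    (a : Fin n → Px c) (e₀ : Pl K ⊕ Fin A.g → El2 S P q d) :
    Rp G B X W T Zc a e₀ (up b v l) v ↔ Rp G B X W T Zc a e₀ (up b v' l) v' := by
  unfold H35.CF.Fr at hv
  rw [Finset.mem_filter, Fintype.mem_piFinset] at hv
  have h1 := h.rp G B a e₀ v fun k => mem_sp.2 ⟨(Finset.mem_filter.1 (hv.1 k)).1, by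
    rw [up_of b v l hv.2 k]
    exact Option.some_ne_none _⟩
  have h2 : (fun k => s (v k)) = v' := funext s1
  rwa [h2] at h1

end cn

end H35.OW
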